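import Pool.Agent.R396.XQ.Stm
import Pool.Agent.R396.QM.QExp
import Pool.Agent.R322.ImAxis

set_option autoImplicit false

/-!
# Assembly: extremal quasimodular forms of all weights
-/

namespace Pool.Agent.R396.XQ

open UpperHalfPlane hiding I
open Real Filter Topology Derivative EisensteinSeries ModularForm MatrixGroups
open scoped Manifold MatrixGroups ModularForm
open Pool.Agent.R396.QM Pool.Agent.R322.QD

noncomputable section

namespace AS

theorem qp_eq (τ : ℍ) : Function.Periodic.qParam 1 (τ : ℂ) =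
    Complex.exp (2 * π * Complex.I * (τ : ℂ)) := by
  unfold Function.Periodic.qParam
  simp

theorem qexp_iff {F : ℍ → ℂ} {c : ℕ → ℂ} : QExp F c ↔ HasQ F c := by
  unfold QExp HasQ
  simp only [qp_eq]

theorem good_of_hasQ {F : ℍ → ℂ} {c : ℕ → ℂ} (h : HasQ F c) : Good F :=
  ⟨h.per, h.mdiff, h.bdd⟩

theorem hasQ_of_good {F : ℍ → ℂ} (h : Good F) : HasQ F (fun n => (qExpansion 1 F).coeff n) := by
  intro τ
  have := hasSum_qExpansion one_pos h.per h.hol h.bdd τ
  simpa [smul_eq_mul] using this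

theorem coeff_eq {F : ℍ → ℂ} {c : ℕ → ℂ} (h : HasQ F c) (n : ℕ) :
    (qExpansion 1 F).coeff n = c n :=
  congrFun ((hasQ_of_good (good_of_hasQ h)).unique h) n

/-- the Serre derivative of a modular form -/
theorem serre_form {k : ℤ} (f : ModularForm 𝒮ℒ k) :
    ∃ g : ModularForm 𝒮ℒ (k + 2), ∀ τ, g τ = D f τ - k / 12 * E2 τ * f τ := by
  have hf : Good (f : ℍ → ℂ) := good_modular f
  have hE := (good_E2.mul hf)
  have h1 : Good (D (f : ℍ → ℂ) - ((k : ℂ) / 12) • (E2 * (f : ℍ → ℂ))) := by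
    refine (good_D hf).sub ⟨?_, ?_, ?_⟩
    · intro w
      have := hE.per w
      simp only [Function.comp_apply, Pi.smul_apply] at this ⊢
      rw [this]
    · exact hE.hol.const_smul _
    · exact hE.bdd.const_smul_left _
  have h2 := hasQ_of_good h1
  have h3 : (D (f : ℍ → ℂ) - ((k : ℂ) / 12) • (E2 * (f : ℍ → ℂ))) = serreDerivative (k : ℂ) f := by
    funext τ
    rw [serreDerivative_apply]
    simp only [Pi.sub_apply, Pi.smul_apply, Pi.mul_apply, smul_eq_mul]
    ring
  have hS : (D (f : ℍ → ℂ) - ((k : ℂ) / 12) • (E2 * (f : ℍ → ℂ))) ∣[k + 2] ModularGroup.S =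
      (D (f : ℍ → ℂ) - ((k : ℂ) / 12) • (E2 * (f : ℍ → ℂ))) := by
    rw [h3]
    refine serreDerivative_slash_invariant hf.hol ?_
    exact Pool.Agent.Y949.J.slash_modularForm f ModularGroup.S
  obtain ⟨g, hg⟩ := h2.form hS
  refine ⟨g, fun τ => ?_⟩
  rw [hg]
  simp only [Pi.sub_apply, Pi.smul_apply, Pi.mul_apply, smul_eq_mul]
  ring

/-! ### Products, derivatives and linear combinations of `q`-expansions -/

theorem hasQ_mul {F G : ℍ → ℂ} {c d : ℕ → ℂ} (hF : HasQ F c) (hG : HasQ G d) :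
    HasQ (fun τ => F τ * G τ)
      (fun n => ∑ p ∈ Finset.HasAntidiagonal.antidiagonal n, c p.1 * d p.2) := by
  have gF := good_of_hasQ hF
  have gG := good_of_hasQ hG
  have h := hasQ_of_good (gF.mul gG)
  have e : (fun n => (qExpansion 1 (F * G)).coeff n) =
      fun n => ∑ p ∈ Finset.HasAntidiagonal.antidiagonal n, c p.1 * d p.2 := by
    funext n
    rw [UpperHalfPlane.qExpansion_mul gF.an gG.an, PowerSeries.coeff_mul]
    exact Finset.sum_congr rfl fun p _ => by rw [coeff_eq hF, coeff_eq hG]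
  rw [e] at h
  exact h

theorem hasQ_D {F : ℍ → ℂ} {c : ℕ → ℂ} (hF : HasQ F c) : HasQ (D F) (fun n => n * c n) := by
  intro τ
  have h := hasSum_D (good_of_hasQ hF) τ
  have e : (fun m : ℕ => ((m : ℂ) * (qExpansion 1 F).coeff m) • Function.Periodic.qParam 1 τ ^ m) =
      fun m : ℕ => (m : ℂ) * c m * Function.Periodic.qParam 1 τ ^ m := by
    funext m
    rw [coeff_eq hF, smul_eq_mul]
  rw [e] at h
  exact h

theorem hasQ_lin {F G : ℍ → ℂ} {c d : ℕ → ℂ} (hF : HasQ F c) (hG : HasQ G d) (a b : ℂ) :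
    HasQ (fun τ => a * F τ + b * G τ) (fun n => a * c n + b * d n) := by
  intro τ
  have h := ((hF τ).mul_left a).add ((hG τ).mul_left b)
  have e : (fun m : ℕ => a * (c m * Function.Periodic.qParam 1 (τ : ℂ) ^ m) +
      b * (d m * Function.Periodic.qParam 1 (τ : ℂ) ^ m)) =
      fun m : ℕ => (a * c m + b * d m) * Function.Periodic.qParam 1 (τ : ℂ) ^ m := by
    funext m
    ring
  rw [e] at h
  exact h

/-- the coefficients of `E2` -/
def a2 (n : ℕ) : ℝ := if n = 0 then 1 else -24 * ArithmeticFunction.sigma 1 n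

/-- the coefficients of `E4` -/
def a4 (n : ℕ) : ℝ := if n = 0 then 1 else 240 * ArithmeticFunction.sigma 3 n

theorem hasQ_E2 : HasQ E2 (fun n => (a2 n : ℂ)) := by
  have h := hasQ_of_good good_E2
  have e : (fun n => (qExpansion 1 E2).coeff n) = fun n => (a2 n : ℂ) := by
    funext n
    have := coeff_e2 n
    unfold e2 at this
    rw [this]
    unfold a2
    split_ifs <;> push_cast <;> rfl
  rw [e] at h
  exact h

theorem hasQ_E4 : HasQ (E₄ : ℍ → ℂ) (fun n => (a4 n : ℂ)) := by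
  have h := hasQ_of_good good_E4
  have e : (fun n => (qExpansion 1 (E₄ : ℍ → ℂ)).coeff n) = fun n => (a4 n : ℂ) := by
    funext n
    have := coeff_e4 n
    unfold e4 at this
    rw [this]
    unfold a4
    split_ifs <;> push_cast <;> rfl
  rw [e] at h
  exact h

/-! ### The imaginary axis -/

/-- the point `i t` -/
theorem coe_it {t : ℝ} (ht : 0 < t) : ((ofComplex (Complex.I * (t : ℂ)) : ℍ) : ℂ) = Complex.I * t := by
  have h : 0 < (Complex.I * (t : ℂ)).im := by simpa using ht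
  rw [ofComplex_apply_of_im_pos h]

theorem im_it {t : ℝ} (ht : 0 < t) : (ofComplex (Complex.I * (t : ℂ)) : ℍ).im = t := by
  show ((ofComplex (Complex.I * (t : ℂ)) : ℍ) : ℂ).im = t
  rw [coe_it ht]
  simp

theorem q_it {t : ℝ} (ht : 0 < t) :
    Function.Periodic.qParam 1 ((ofComplex (Complex.I * (t : ℂ)) : ℍ) : ℂ) =
      (Real.exp (-(2 * π * t)) : ℂ) := by
  rw [qp_eq, coe_it ht]
  push_cast
  congr 1
  linear_combination (2 * π * t : ℂ) * Complex.I_sq

theorem real_it {F : ℍ → ℂ} {c : ℕ → ℝ} (h : HasQ F (fun n => (c n : ℂ))) {t : ℝ} (ht : 0 < t) :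
    (F (ofComplex (Complex.I * (t : ℂ)))).im = 0 := by
  have h1 := h (ofComplex (Complex.I * (t : ℂ)))
  rw [q_it ht] at h1
  have h2 := Complex.hasSum_im h1
  refine h2.unique ?_
  have e : (fun m : ℕ => ((c m : ℂ) * (Real.exp (-(2 * π * t)) : ℂ) ^ m).im) = fun _ => 0 := by
    funext m
    rw [← Complex.ofReal_pow, ← Complex.ofReal_mul, Complex.ofReal_im]
  rw [e]
  exact hasSum_zero

theorem ax_eq {F : ℍ → ℂ} {c : ℕ → ℝ} (h : HasQ F (fun n => (c n : ℂ))) {t : ℝ} (ht : 0 < t) :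
    F (ofComplex (Complex.I * (t : ℂ))) = (ax F t : ℂ) := by
  apply Complex.ext
  · rw [Complex.ofReal_re]; rfl
  · rw [Complex.ofReal_im]; exact real_it h ht

theorem hasDerivAt_ax {F : ℍ → ℂ} (hF : MDiff F) {t : ℝ} (ht : 0 < t) :
    HasDerivAt (ax F) (-(2 * π) * ax (D F) t) t := by
  have him : 0 < (Complex.I * (t : ℂ)).im := by simpa using ht
  have hd : DifferentiableAt ℂ (F ∘ ofComplex) (Complex.I * (t : ℂ)) := by
    have := (UpperHalfPlane.mdifferentiable_iff.1 hF)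
    exact this.differentiableAt (isOpen_upperHalfPlaneSet.mem_nhds him)
  have h1 := hd.hasDerivAt
  have hl : HasDerivAt (fun s : ℝ => Complex.I * (s : ℂ)) Complex.I t := by
    have := (Complex.ofRealCLM.hasDerivAt (x := t)).const_mul Complex.I
    simpa using this
  have h2 : HasDerivAt (fun s : ℝ => (F ∘ ofComplex) (Complex.I * (s : ℂ)))
      (deriv (F ∘ ofComplex) (Complex.I * (t : ℂ)) * Complex.I) t :=
    HasDerivAt.comp t h1 hl
  have h3 : HasDerivAt (fun s : ℝ => ((F ∘ ofComplex) (Complex.I * (s : ℂ))).re)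
      ((deriv (F ∘ ofComplex) (Complex.I * (t : ℂ)) * Complex.I).re) t :=
    Complex.reCLM.hasFDerivAt.comp_hasDerivAt t h2
  have e : D F (ofComplex (Complex.I * (t : ℂ))) =
      (2 * π * Complex.I)⁻¹ * deriv (F ∘ ofComplex) (Complex.I * (t : ℂ)) := by
    rw [normalizedDerivOfComplex, coe_it ht]
  have e2 : (deriv (F ∘ ofComplex) (Complex.I * (t : ℂ)) * Complex.I) =
      ((-(2 * π) : ℝ) : ℂ) * D F (ofComplex (Complex.I * (t : ℂ))) := by
    rw [e]
    have hpi : (2 * π * Complex.I : ℂ) ≠ 0 := Complex.two_pi_I_ne_zero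
    push_cast
    field_simp
    linear_combination (deriv (F ∘ ofComplex) (Complex.I * (t : ℂ))) * Complex.I_sq
  rw [e2, Complex.re_ofReal_mul] at h3
  exact h3

theorem tendsto_it : Tendsto (fun t : ℝ => (ofComplex (Complex.I * (t : ℂ)) : ℍ)) atTop atImInfty := by
  refine tendsto_comap_iff.2 ?_
  refine tendsto_id.congr' ?_
  filter_upwards [eventually_gt_atTop 0] with t ht
  simp only [Function.comp_apply, id]
  exact (im_it ht).symm

theorem hasQ_shift {F : ℍ → ℂ} {c : ℕ → ℂ} (h : HasQ F c) (k : ℕ) (h0 : ∀ n < k, c n = 0) :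
    HasQ (fun τ => F τ * (Function.Periodic.qParam 1 (τ : ℂ) ^ k)⁻¹) (fun n => c (n + k)) := by
  intro τ
  have h1 := (hasSum_nat_add_iff' k).2 (h τ)
  have h2 : ∑ i ∈ Finset.range k, c i * Function.Periodic.qParam 1 (τ : ℂ) ^ i = 0 :=
    Finset.sum_eq_zero (fun i hi => by rw [h0 i (Finset.mem_range.1 hi), zero_mul])
  rw [h2, sub_zero] at h1
  have h3 := h1.mul_right (Function.Periodic.qParam 1 (τ : ℂ) ^ k)⁻¹
  have hne : Function.Periodic.qParam 1 (τ : ℂ) ≠ 0 := by
    rw [qp_eq]; exact Complex.exp_ne_zero _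
  have e : (fun n => c (n + k) * Function.Periodic.qParam 1 (τ : ℂ) ^ (n + k) *
      (Function.Periodic.qParam 1 (τ : ℂ) ^ k)⁻¹) =
      fun n => c (n + k) * Function.Periodic.qParam 1 (τ : ℂ) ^ n := by
    funext n
    rw [pow_add]
    field_simp
  rw [e] at h3
  exact h3

/-- the leading behaviour on the imaginary axis -/
theorem tendsto_lead {F : ℍ → ℂ} {c : ℕ → ℝ} (h : HasQ F (fun n => (c n : ℂ))) (k : ℕ)
    (h0 : ∀ n < k, c n = 0) :
    Tendsto (fun t : ℝ => ax F t * (Real.exp (-(2 * π * t)) ^ k)⁻¹) atTop (𝓝 (c k)) := by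
  have h1 := hasQ_shift h k (fun n hn => by rw [h0 n hn]; simp)
  have h2 : Tendsto _ atImInfty (𝓝 ((c (0 + k) : ℝ) : ℂ)) :=
    Pool.Agent.Y949.J.tendsto_of_hasSum h1.mdiff h1.smul_form
  rw [zero_add] at h2
  have h3 := (Complex.continuous_re.tendsto _).comp (h2.comp tendsto_it)
  rw [Complex.ofReal_re] at h3
  refine h3.congr' ?_
  filter_upwards [eventually_gt_atTop 0] with t ht
  simp only [Function.comp_apply]
  rw [q_it ht, ← Complex.ofReal_pow, ← Complex.ofReal_inv, mul_comm, Complex.re_ofReal_mul, mul_comm]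
  rfl

/-! ### Dimensions -/

theorem dimQM_eq {w : ℕ} (hw : Even w) (h6 : 6 ≤ w) : dimQM w - 1 = w / 6 := by
  have h1 : Module.finrank ℂ (ModularForm 𝒮ℒ (w : ℤ)) =
      if w ≡ 2 [MOD 12] then w / 12 else w / 12 + 1 := by
    have := dimension_level_one w hw
    unfold Module.finrank
    rw [this]
    split_ifs <;> simp
  have h2 : Module.finrank ℂ (ModularForm 𝒮ℒ ((w : ℤ) - 2)) =
      if w - 2 ≡ 2 [MOD 12] then (w - 2) / 12 else (w - 2) / 12 + 1 := by
    have := dimension_level_one (w - 2) (by grind)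
    rw [show ((w : ℤ) - 2) = ((w - 2 : ℕ) : ℤ) by omega]
    unfold Module.finrank
    rw [this]
    split_ifs <;> simp
  unfold dimQM
  rw [h1, h2]
  obtain ⟨m, rfl⟩ := hw
  unfold Nat.ModEq
  split_ifs <;> omega

/-! ### Quasimodular forms of integral weight -/

def QM (w : ℤ) (F : ℍ → ℂ) : Prop :=
  ∃ (f : ModularForm 𝒮ℒ w) (g : ModularForm 𝒮ℒ (w - 2)), ∀ τ, F τ = f τ + E2 τ * g τ

theorem QM.isQM {w : ℤ} {F : ℍ → ℂ} (h : QM w F) {v : ℕ} (hv : (v : ℤ) = w) : IsQM v F := by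
  subst hv
  exact h

theorem QM.mul_E4 {w : ℤ} {F : ℍ → ℂ} (h : QM w F) : QM (w + 4) (fun τ => E₄ τ * F τ) := by
  obtain ⟨f, g, hF⟩ := h
  refine ⟨(f.mul E₄), (g.mul E₄).mcast (by ring), fun τ => ?_⟩
  rw [ModularForm.mcast_apply, ModularForm.coe_mul, ModularForm.coe_mul]
  simp only [Pi.mul_apply]
  rw [hF]
  ring

theorem QM.smul {w : ℤ} {F : ℍ → ℂ} (h : QM w F) (a : ℂ) : QM w (fun τ => a * F τ) := by
  obtain ⟨f, g, hF⟩ := h
  refine ⟨a • f, a • g, fun τ => ?_⟩
  show a * F τ = a * f τ + E2 τ * (a * g τ)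
  rw [hF]
  ring

/-- the operator raising the weight by two -/
theorem QM.raise {w : ℤ} {F : ℍ → ℂ} (h : QM w F) :
    QM (w + 2) (fun τ => D F τ - ((w : ℂ) - 1) / 12 * (E2 τ * F τ)) := by
  obtain ⟨f, g, hF⟩ := h
  obtain ⟨f1, hf1⟩ := serre_form f
  obtain ⟨g1, hg1⟩ := serre_form g
  have hFe : F = (f : ℍ → ℂ) + E2 * (g : ℍ → ℂ) := funext fun τ => hF τ
  have hf : MDiff (f : ℍ → ℂ) := ModularFormClass.holo f
  have hg : MDiff (g : ℍ → ℂ) := ModularFormClass.holo g
  have hD : ∀ τ, D F τ = D f τ + (D E2 τ * g τ + E2 τ * D g τ) := by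
    intro τ
    rw [hFe, normalizedDerivOfComplex_add _ _ hf (E2_mdifferentiable.mul hg),
      normalizedDerivOfComplex_mul _ _ E2_mdifferentiable hg]
    rfl
  refine ⟨f1 - (12⁻¹ : ℂ) • ((E₄.mul g).mcast (by push_cast; ring)),
    ((12⁻¹ : ℂ) • f + g1.mcast (by ring)).mcast (by ring), fun τ => ?_⟩
  rw [ModularForm.mcast_apply, sub_apply, add_apply, smul_apply,
    smul_apply, ModularForm.mcast_apply, ModularForm.mcast_apply, ModularForm.coe_mul]
  simp only [Pi.mul_apply, smul_eq_mul]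
  rw [hf1, hg1, hD, hF, Pool.Agent.Y949.J.ram2]
  push_cast
  ring

/-- Uniqueness -/
theorem unique_of_job (hO : JobOrd) {w : ℕ} (hw : Even w) (h6 : 6 ≤ w) {X Y : ℍ → ℂ}
    (hX : IsExtremal w X) (hY : IsExtremal w Y) : Y = X := by
  obtain ⟨⟨f, g, hf⟩, c, hc, c0, c1⟩ := hX
  obtain ⟨⟨f', g', hf'⟩, d, hd, d0, d1⟩ := hY
  rw [dimQM_eq hw h6] at c0 c1 d0 d1
  have h1 := hasQ_lin (qexp_iff.1 hd) (qexp_iff.1 hc) 1 (-1)
  have e : (fun τ => 1 * Y τ + -1 * X τ) = fun τ => (f' - f) τ + E2 τ * (g' - g) τ := by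
    funext τ
    rw [hf, hf', sub_apply, sub_apply]
    ring
  rw [e] at h1
  obtain ⟨r1, r2⟩ := hO w (f' - f) (g' - g) _ (qexp_iff.2 h1) (by
    intro n hn
    have hn' : n ≤ w / 6 := by omega
    rcases hn'.lt_or_eq with h | h
    · rw [c0 n h, d0 n h]; ring
    · rw [h, c1, d1]; ring)
  funext τ
  rw [hf, hf', sub_eq_zero.1 r1, sub_eq_zero.1 r2]

/-- the conclusion for one function -/
def Concl (w : ℕ) (X : ℍ → ℂ) : Prop :=
  IsExtremal w X ∧ (∀ Y, IsExtremal w Y → Y = X) ∧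
    (∀ t : ℝ, 0 < t → (X (ofComplex (Complex.I * (t : ℂ)))).im = 0) ∧
    AntitoneOn (fun t : ℝ => t ^ (w - 1) * ax X t) (Set.Ioi 0)

theorem concl (hA : JobAx) (hR : JobReal) (hO : JobOrd) (hK : JobKK) (k : ℕ) (hk : 1 ≤ k) :
    (∃ X, Concl (6 * k) X) ∧ (2 ≤ k → ∃ X, Concl (6 * k + 4) X) ∧
      (2 ≤ k → ∃ X, Concl (6 * k + 2) X) := by
  obtain ⟨f, g, c, hc, c0, c1, hode⟩ := hK k hk
  set X : ℍ → ℂ := fun τ => f τ + E2 τ * g τ with hX
  have hXq : HasQ X (fun n => (c n : ℂ)) := qexp_iff.1 hc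
  have hDq : HasQ (D X) (fun n => (((n : ℝ) * c n : ℝ) : ℂ)) := by
    have := hasQ_D hXq
    push_cast
    exact this
  have hDDq : HasQ (D (D X)) (fun n => (((n : ℝ) * ((n : ℝ) * c n) : ℝ) : ℂ)) := by
    have := hasQ_D hDq
    push_cast
    push_cast at this
    exact this
  have hQM : QM (6 * k) X := ⟨f, g, fun τ => rfl⟩
  obtain ⟨m1, m2, m3⟩ := hR _ _ _ hA k hk (ax X) (ax (D X))
    (fun t ht => hasDerivAt_ax hXq.mdiff ht)
    (fun t ht => by
      have h1 := hasDerivAt_ax hDq.mdiff ht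
      have h2 : ax (D (D X)) t = k * ax E2 t * ax (D X) t +
          (k * (6 * k - 1) / 2) * ((ax (E₄ : ℍ → ℂ) t - ax E2 t ^ 2) / 12) * ax X t := by
        have h3 := hode (ofComplex (Complex.I * (t : ℂ)))
        rw [Pool.Agent.Y949.J.ram2] at h3
        have h4 : (f (ofComplex (Complex.I * (t : ℂ))) + E2 (ofComplex (Complex.I * (t : ℂ))) *
            g (ofComplex (Complex.I * (t : ℂ)))) = (ax X t : ℂ) := ax_eq hXq ht
        rw [h4, ax_eq hDDq ht, ax_eq hDq ht, ax_eq hasQ_E2 ht, ax_eq hasQ_E4 ht] at h3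
        have h5 : ((ax (D (D X)) t : ℝ) : ℂ) = ((k * ax E2 t * ax (D X) t +
          (k * (6 * k - 1) / 2) * ((ax (E₄ : ℍ → ℂ) t - ax E2 t ^ 2) / 12) * ax X t : ℝ) : ℂ) := by
          rw [h3]
          push_cast
          ring
        exact_mod_cast h5
      rw [h2] at h1
      exact h1)
    (by
      have t1 := tendsto_lead hXq k c0
      have t2 := tendsto_lead hDq k (fun n hn => by rw [c0 n hn, mul_zero])
      rw [c1] at t1 t2
      have t3 := t2.div t1 one_ne_zero
      rw [mul_one, div_one] at t3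
      refine t3.congr fun t => ?_
      simp only [Pi.div_apply]
      have : (Real.exp (-(2 * π * t)) ^ k)⁻¹ ≠ 0 := by positivity
      rw [mul_div_mul_right _ _ this])
    (by
      have t1 := tendsto_lead hXq k c0
      rw [c1] at t1
      filter_upwards [t1.eventually (lt_mem_nhds one_pos)] with t ht
      have : 0 < (Real.exp (-(2 * π * t)) ^ k)⁻¹ := by positivity
      exact (pos_iff_pos_of_mul_pos ht).2 this)
  refine ⟨⟨X, ?_⟩, fun h2 => ?_, fun h2 => ?_⟩
  · have hE : IsExtremal (6 * k) X := by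
      refine ⟨hQM.isQM (by push_cast; ring), fun n => (c n : ℂ), hc, ?_, ?_⟩
      · intro n hn
        rw [dimQM_eq ⟨3 * k, by ring⟩ (by omega)] at hn
        show ((c n : ℝ) : ℂ) = 0
        rw [c0 n (by omega)]; simp
      · rw [dimQM_eq ⟨3 * k, by ring⟩ (by omega), show 6 * k / 6 = k by omega]
        show ((c k : ℝ) : ℂ) = 1
        rw [c1]; simp
    exact ⟨hE, fun Y hY => unique_of_job hO ⟨3 * k, by ring⟩ (by omega) hE hY,
      fun t ht => real_it hXq ht, m1⟩
  · set d : ℕ → ℝ := fun n => ∑ p ∈ Finset.HasAntidiagonal.antidiagonal n, a4 p.1 * c p.2 with hd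
    have hYq : HasQ (fun τ => E₄ τ * X τ) (fun n => (d n : ℂ)) := by
      have := hasQ_mul hasQ_E4 hXq
      rw [hd]
      push_cast
      exact this
    have hd0 : ∀ n < k, d n = 0 := by
      intro n hn
      rw [hd]
      refine Finset.sum_eq_zero fun p hp => ?_
      rw [Finset.HasAntidiagonal.mem_antidiagonal] at hp
      rw [c0 p.2 (by omega), mul_zero]
    have hd1 : d k = 1 := by
      rw [hd]
      simp only
      rw [Finset.sum_eq_single (0, k)]
      · simp [a4, c1]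
      · intro p hp hne
        rw [Finset.HasAntidiagonal.mem_antidiagonal] at hp
        have : p.2 ≠ k := by
          intro h
          apply hne
          ext <;> simp <;> omega
        rw [c0 p.2 (by omega), mul_zero]
      · intro h
        exfalso
        apply h
        rw [Finset.HasAntidiagonal.mem_antidiagonal]
        simp
    have hE : IsExtremal (6 * k + 4) (fun τ => E₄ τ * X τ) := by
      refine ⟨hQM.mul_E4.isQM (by push_cast; ring), fun n => (d n : ℂ), qexp_iff.2 hYq, ?_, ?_⟩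
      · intro n hn
        rw [dimQM_eq ⟨3 * k + 2, by ring⟩ (by omega)] at hn
        show ((d n : ℝ) : ℂ) = 0
        rw [hd0 n (by omega)]; simp
      · rw [dimQM_eq ⟨3 * k + 2, by ring⟩ (by omega), show (6 * k + 4) / 6 = k by omega]
        show ((d k : ℝ) : ℂ) = 1
        rw [hd1]; simp
    refine ⟨_, hE, fun Y hY => unique_of_job hO ⟨3 * k + 2, by ring⟩ (by omega) hE hY,
      fun t ht => real_it hYq ht, ?_⟩
    refine (m2 h2).congr ?_
    intro t ht
    have h1 := ax_eq hYq ht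
    rw [ax_eq hasQ_E4 ht, ax_eq hXq ht] at h1
    have h3 : ax (E₄ : ℍ → ℂ) t * ax X t = ax (fun τ => E₄ τ * X τ) t := by exact_mod_cast h1
    simp only
    rw [h3]
    rfl
  · set a : ℝ := 12 / (6 * k + 1) with ha
    have hk1 : (6 * (k : ℝ) + 1) ≠ 0 := by positivity
    have ha0 : 0 < a := by rw [ha]; positivity
    set d : ℕ → ℝ := fun n => a * (n * c n) + (-(a * ((6 * k - 1) / 12))) *
      ∑ p ∈ Finset.HasAntidiagonal.antidiagonal n, a2 p.1 * c p.2 with hd
    have hYq : HasQ (fun τ => (a : ℂ) * D X τ + (-((a : ℂ) * ((6 * k - 1) / 12))) * (E2 τ * X τ))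
        (fun n => (d n : ℂ)) := by
      have := hasQ_lin hDq (hasQ_mul hasQ_E2 hXq) (a : ℂ) (-((a : ℂ) * ((6 * k - 1) / 12)))
      rw [hd]
      push_cast
      push_cast at this
      exact this
    have hd0 : ∀ n < k, d n = 0 := by
      intro n hn
      rw [hd]
      simp only
      rw [c0 n hn, Finset.sum_eq_zero]
      · ring
      · intro p hp
        rw [Finset.HasAntidiagonal.mem_antidiagonal] at hp
        rw [c0 p.2 (by omega), mul_zero]
    have hd1 : d k = 1 := by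
      rw [hd]
      simp only
      rw [Finset.sum_eq_single (0, k)]
      · simp only [a2, c1, if_true]
        rw [ha]
        field_simp
        ring
      · intro p hp hne
        rw [Finset.HasAntidiagonal.mem_antidiagonal] at hp
        have : p.2 ≠ k := by
          intro h
          apply hne
          ext <;> simp <;> omega
        rw [c0 p.2 (by omega), mul_zero]
      · intro h
        exfalso
        apply h
        rw [Finset.HasAntidiagonal.mem_antidiagonal]
        simp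
    have hQM2 : QM (6 * k + 2)
        (fun τ => (a : ℂ) * D X τ + (-((a : ℂ) * ((6 * k - 1) / 12))) * (E2 τ * X τ)) := by
      have := (hQM.raise).smul (a : ℂ)
      have e : (fun τ => (a : ℂ) * (D X τ - (((6 * (k : ℤ) : ℤ) : ℂ) - 1) / 12 * (E2 τ * X τ))) =
        (fun τ => (a : ℂ) * D X τ + (-((a : ℂ) * ((6 * k - 1) / 12))) * (E2 τ * X τ)) := by
        funext τ
        push_cast
        ring
      rw [e] at this
      exact this
    have hE : IsExtremal (6 * k + 2)
        (fun τ => (a : ℂ) * D X τ + (-((a : ℂ) * ((6 * k - 1) / 12))) * (E2 τ * X τ)) := by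
      refine ⟨hQM2.isQM (by push_cast; ring), fun n => (d n : ℂ), qexp_iff.2 hYq, ?_, ?_⟩
      · intro n hn
        rw [dimQM_eq ⟨3 * k + 1, by ring⟩ (by omega)] at hn
        show ((d n : ℝ) : ℂ) = 0
        rw [hd0 n (by omega)]; simp
      · rw [dimQM_eq ⟨3 * k + 1, by ring⟩ (by omega), show (6 * k + 2) / 6 = k by omega]
        show ((d k : ℝ) : ℂ) = 1
        rw [hd1]; simp
    refine ⟨_, hE, fun Y hY => unique_of_job hO ⟨3 * k + 1, by ring⟩ (by omega) hE hY,
      fun t ht => real_it hYq ht, ?_⟩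
    have h4 := m3 h2
    have h5 : AntitoneOn (fun t => a * (t ^ (6 * k + 1) *
        (ax (D X) t - (6 * k - 1) / 12 * ax E2 t * ax X t))) (Set.Ioi 0) := by
      intro s hs t ht hst
      exact mul_le_mul_of_nonneg_left (h4 hs ht hst) ha0.le
    refine h5.congr ?_
    intro t ht
    have h1 := ax_eq hYq ht
    rw [ax_eq hasQ_E2 ht, ax_eq hXq ht, ax_eq hDq ht] at h1
    have h3 : a * ax (D X) t + (-(a * ((6 * k - 1) / 12))) * (ax E2 t * ax X t) =
        ax (fun τ => (a : ℂ) * D X τ + (-((a : ℂ) * ((6 * k - 1) / 12))) * (E2 τ * X τ)) t := by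
      exact_mod_cast h1
    simp only
    rw [← h3]
    have : 6 * k + 2 - 1 = 6 * k + 1 := by omega
    rw [this]
    ring

end AS

theorem main (hA : JobAx) (hR : JobReal) (hO : JobOrd) (hK : JobKK) (w : ℕ) (hw : Even w)
    (h6 : 6 ≤ w) (h8 : w ≠ 8) (h10 : w ≠ 10) :
    ∃ X : ℍ → ℂ, IsExtremal w X ∧ (∀ Y, IsExtremal w Y → Y = X) ∧
      (∀ t : ℝ, 0 < t → (X (ofComplex (Complex.I * (t : ℂ)))).im = 0) ∧
      AntitoneOn (fun t : ℝ => t ^ (w - 1) * (X (ofComplex (Complex.I * (t : ℂ)))).re)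
        (Set.Ioi 0) := by
  obtain ⟨m, hm⟩ := hw
  obtain ⟨k, hk⟩ : ∃ k, w = 6 * k ∨ w = 6 * k + 4 ∨ w = 6 * k + 2 := ⟨w / 6, by omega⟩
  rcases hk with rfl | rfl | rfl
  · exact (AS.concl hA hR hO hK k (by omega)).1
  · exact (AS.concl hA hR hO hK k (by omega)).2.1 (by omega)
  · exact (AS.concl hA hR hO hK k (by omega)).2.2 (by omega)

end

end Pool.Agent.R396.XQ
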