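import Pool.Agent.R396.XQ.Stm
import Pool.Agent.R322.ImAxis
import Pool.Agent.R396.WJ.Ana

/-!
# Eisenstein series on the imaginary axis: the facts `JobAx`
-/

set_option autoImplicit false

open UpperHalfPlane hiding I
open Real Complex Filter Topology Derivative EisensteinSeries ModularForm MatrixGroups Function CuspForm
open scoped Manifold MatrixGroups ModularForm

namespace Pool.Agent.R396.XQ.AX

open Pool.Agent.R322.QD Pool.Agent.R396.XQ

noncomputable section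

/-- the point `i t` -/
def pt (t : ℝ) (ht : 0 < t) : ℍ := ⟨I * (t : ℂ), by simpa using ht⟩

lemma pt_coe (t : ℝ) (ht : 0 < t) : ((pt t ht : ℍ) : ℂ) = I * t := rfl

lemma pt_re (t : ℝ) (ht : 0 < t) : (pt t ht).re = 0 := by
  show (I * (t : ℂ)).re = 0
  simp

lemma pt_im (t : ℝ) (ht : 0 < t) : (pt t ht).im = t := by
  show (I * (t : ℂ)).im = t
  simp

lemma im_pos' {t : ℝ} (ht : 0 < t) : 0 < (I * (t : ℂ)).im := by simpa using ht

lemma ofComplex_I (t : ℝ) (ht : 0 < t) : ofComplex (I * (t : ℂ)) = pt t ht := by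
  rw [ofComplex_apply_of_im_pos (im_pos' ht)]
  rfl

lemma ax_eq (F : ℍ → ℂ) (t : ℝ) (ht : 0 < t) : ax F t = (F (pt t ht)).re := by
  unfold ax
  rw [ofComplex_I t ht]

lemma inv_two_pi_I : (2 * π * I : ℂ)⁻¹ = -I / (2 * π) := by
  have hpi : (π : ℂ) ≠ 0 := by exact_mod_cast Real.pi_ne_zero
  have h5 : (2 * π * I : ℂ) ≠ 0 := Complex.two_pi_I_ne_zero
  field_simp
  linear_combination I_sq

/-- derivative along the axis -/
lemma hasDerivAt_ax {F : ℍ → ℂ} (hF : MDiff F) (t : ℝ) (ht : 0 < t) :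
    HasDerivAt (ax F) (-(2 * π) * ax (D F) t) t := by
  have h1 : DifferentiableAt ℂ (F ∘ ofComplex) (I * (t : ℂ)) := by
    have := UpperHalfPlane.mdifferentiable_iff.mp hF
    exact (this _ (im_pos' ht)).differentiableAt (isOpen_upperHalfPlaneSet.mem_nhds (im_pos' ht))
  have h2 : HasDerivAt (fun s : ℝ => I * (s : ℂ)) (I * 1) t :=
    (Complex.ofRealCLM.hasDerivAt (x := t)).const_mul I
  have h3 := h1.hasDerivAt.comp_of_eq t h2 rfl
  have h4 : HasDerivAt (fun s : ℝ => ((F ∘ ofComplex) (I * (s : ℂ))).re)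
      (deriv (F ∘ ofComplex) (I * (t : ℂ)) * (I * 1)).re t := by
    have := Complex.reCLM.hasFDerivAt.comp_hasDerivAt t h3
    exact this
  have h5 : D F (pt t ht) = (2 * π * I)⁻¹ * deriv (F ∘ ofComplex) (I * (t : ℂ)) := rfl
  have h6 : deriv (F ∘ ofComplex) (I * (t : ℂ)) * (I * 1) = ((-(2 * π) : ℝ) : ℂ) * D F (pt t ht) := by
    rw [h5, inv_two_pi_I]
    have hpi : (π : ℂ) ≠ 0 := by exact_mod_cast Real.pi_ne_zero
    push_cast
    field_simp
  rw [h6, Complex.re_ofReal_mul, ← ax_eq] at h4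
  exact h4

lemma sum_ax {f : ℍ → ℂ} (hf : Good f) (c : ℕ → ℝ)
    (hc : ∀ n, (qExpansion 1 f).coeff n = (c n : ℂ)) (t : ℝ) (ht : 0 < t) :
    HasSum (fun n => c n * rr (pt t ht) ^ n) (ax f t) := by
  rw [ax_eq f t ht]
  exact (hasSum_real hf c hc (pt_re t ht)).1

lemma val_ax {f : ℍ → ℂ} (hf : Good f) (c : ℕ → ℝ)
    (hc : ∀ n, (qExpansion 1 f).coeff n = (c n : ℂ)) (t : ℝ) (ht : 0 < t) :
    f (pt t ht) = ((ax f t : ℝ) : ℂ) := by
  apply Complex.ext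
  · rw [ax_eq f t ht]; simp
  · simpa using (hasSum_real hf c hc (pt_re t ht)).2

lemma coeff_D {f : ℍ → ℂ} (hf : Good f) (c : ℕ → ℝ)
    (hc : ∀ n, (qExpansion 1 f).coeff n = (c n : ℂ)) (n : ℕ) :
    (qExpansion 1 (D f)).coeff n = (((n : ℝ) * c n : ℝ) : ℂ) := by
  rw [qExpansion_D hf, coeff_th, hc]
  push_cast; ring

lemma ax_D {f : ℍ → ℂ} (hf : Good f) (g : ℝ → ℝ) (g' : ℝ) (t : ℝ) (ht : 0 < t)
    (hg : ∀ s, 0 < s → ax f s = g s) (hd : HasDerivAt g (-(2 * π) * g') t) : ax (D f) t = g' := by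
  have h1 := hasDerivAt_ax hf.hol t ht
  have h2 : ax f =ᶠ[𝓝 t] g := by
    filter_upwards [eventually_gt_nhds ht] with s hs using hg s hs
  have h3 := (h1.congr_of_eventuallyEq h2.symm).unique hd
  have hpi : -(2 * π) ≠ 0 := by
    have := Real.pi_pos
    linarith
  exact mul_left_cancel₀ hpi h3

/-- real coefficients of `E₂` -/
def c2 (n : ℕ) : ℝ := if n = 0 then 1 else -24 * ArithmeticFunction.sigma 1 n

lemma hc2 (n : ℕ) : (qExpansion 1 E2).coeff n = (c2 n : ℂ) := by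
  have := coeff_e2 n
  rw [e2] at this
  rw [this, c2]
  split_ifs <;> simp

lemma hc4 (n : ℕ) : (qExpansion 1 (E₄ : ℍ → ℂ)).coeff n = (c4 n : ℂ) := by
  have := coeff_e4 n
  rw [e4] at this
  rw [this, c4]
  split_ifs <;> simp

lemma hc6 (n : ℕ) : (qExpansion 1 (E₆ : ℍ → ℂ)).coeff n = (c6 n : ℂ) := by
  have := coeff_e6 n
  rw [e6] at this
  rw [this, c6]
  split_ifs <;> simp

/-- `E₂(it)` -/
abbrev P : ℝ → ℝ := ax E2
/-- `E₄(it)` -/
abbrev Q : ℝ → ℝ := ax (E₄ : ℍ → ℂ)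
/-- `E₆(it)` -/
abbrev R : ℝ → ℝ := ax (E₆ : ℍ → ℂ)

lemma vP (t : ℝ) (ht : 0 < t) : E2 (pt t ht) = ((P t : ℝ) : ℂ) := val_ax good_E2 c2 hc2 t ht
lemma vQ (t : ℝ) (ht : 0 < t) : E₄ (pt t ht) = ((Q t : ℝ) : ℂ) := val_ax good_E4 c4 hc4 t ht
lemma vR (t : ℝ) (ht : 0 < t) : E₆ (pt t ht) = ((R t : ℝ) : ℂ) := val_ax good_E6 c6 hc6 t ht

lemma DP (t : ℝ) (ht : 0 < t) : ax (D E2) t = (P t ^ 2 - Q t) / 12 := by
  rw [ax_eq _ t ht, Pool.Agent.Y949.J.ram2, vP, vQ]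
  have : (12⁻¹ * (((P t : ℝ) : ℂ) ^ 2 - ((Q t : ℝ) : ℂ)) : ℂ) = (((P t ^ 2 - Q t) / 12 : ℝ) : ℂ) := by
    push_cast; ring
  rw [this, Complex.ofReal_re]

lemma DQ (t : ℝ) (ht : 0 < t) : ax (D (E₄ : ℍ → ℂ)) t = (P t * Q t - R t) / 3 := by
  have h := Pool.Agent.Y949.J.ram4 (pt t ht)
  rw [vP, vQ, vR] at h
  rw [ax_eq _ t ht]
  rw [show D (E₄ : ℍ → ℂ) (pt t ht) = D (fun w => E₄ w) (pt t ht) from rfl, h]
  have : (3⁻¹ * (((P t : ℝ) : ℂ) * ((Q t : ℝ) : ℂ) - ((R t : ℝ) : ℂ)) : ℂ) =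
    (((P t * Q t - R t) / 3 : ℝ) : ℂ) := by
    push_cast; ring
  rw [this, Complex.ofReal_re]

lemma DR (t : ℝ) (ht : 0 < t) : ax (D (E₆ : ℍ → ℂ)) t = (P t * R t - Q t ^ 2) / 2 := by
  have h := Pool.Agent.Y949.J.ram6 (pt t ht)
  rw [vP, vQ, vR] at h
  rw [ax_eq _ t ht]
  rw [show D (E₆ : ℍ → ℂ) (pt t ht) = D (fun w => E₆ w) (pt t ht) from rfl, h]
  have : (2⁻¹ * (((P t : ℝ) : ℂ) * ((R t : ℝ) : ℂ) - ((Q t : ℝ) : ℂ) ^ 2) : ℂ) =
    (((P t * R t - Q t ^ 2) / 2 : ℝ) : ℂ) := by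
    push_cast; ring
  rw [this, Complex.ofReal_re]

lemma dP (t : ℝ) (ht : 0 < t) : HasDerivAt P (-(2 * π) * ((P t ^ 2 - Q t) / 12)) t := by
  have := hasDerivAt_ax good_E2.hol t ht
  rwa [DP t ht] at this

lemma dQ (t : ℝ) (ht : 0 < t) : HasDerivAt Q (-(2 * π) * ((P t * Q t - R t) / 3)) t := by
  have := hasDerivAt_ax good_E4.hol t ht
  rwa [DQ t ht] at this

lemma dR (t : ℝ) (ht : 0 < t) : HasDerivAt R (-(2 * π) * ((P t * R t - Q t ^ 2) / 2)) t := by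
  have := hasDerivAt_ax good_E6.hol t ht
  rwa [DR t ht] at this

lemma DDQ (t : ℝ) (ht : 0 < t) : ax (D (D (E₄ : ℍ → ℂ))) t =
    5 / 36 * (P t ^ 2 * Q t + Q t ^ 2 - 2 * P t * R t) := by
  refine ax_D (good_D good_E4) (fun s => (P s * Q s - R s) / 3) _ t ht (fun s hs => DQ s hs) ?_
  have h := (((dP t ht).mul (dQ t ht)).sub (dR t ht)).div_const 3
  convert! h using 1
  ring

/-! ### weights 8 and 10 -/

/-- `E₈` -/
abbrev E8 : ModularForm 𝒮ℒ 8 := E (by norm_num : 3 ≤ 8)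
/-- `E₁₀` -/
abbrev E10 : ModularForm 𝒮ℒ 10 := E (by norm_num : 3 ≤ 10)

lemma E8_eq (z : ℍ) : E8 z = E₄ z * E₄ z := by
  have h0 : ((E₄ : ℍ → ℂ) * (E₄ : ℍ → ℂ)) + (-1 : ℂ) • (E8 : ℍ → ℂ) = 0 := by
    apply Pool.Agent.Y949.J.eq_zero_of_tendsto (k := 8) (by norm_num)
    · exact ((ModularFormClass.holo E₄).mul (ModularFormClass.holo E₄)).add
        ((ModularFormClass.holo E8).const_smul _)
    · intro γ
      have h2 : (E₄ : ℍ → ℂ) ∣[(4 : ℤ)] γ = E₄ := Pool.Agent.Y949.J.slash_modularForm E₄ γ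
      have h3 : (E8 : ℍ → ℂ) ∣[(8 : ℤ)] γ = E8 := Pool.Agent.Y949.J.slash_modularForm E8 γ
      have h4 : ((E₄ : ℍ → ℂ) * (E₄ : ℍ → ℂ)) ∣[(8 : ℤ)] γ = (E₄ : ℍ → ℂ) * (E₄ : ℍ → ℂ) := by
        have := ModularForm.mul_slash_SL2 4 4 γ (E₄ : ℍ → ℂ) (E₄ : ℍ → ℂ)
        rw [h2] at this
        exact this
      rw [SlashAction.add_slash, h4, ModularForm.SL_smul_slash, h3]
    · have h2 := Pool.Agent.Y949.J.tendsto_E4.mul Pool.Agent.Y949.J.tendsto_E4
      have h5 := Pool.Agent.Y949.J.tendsto_modularForm E8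
      rw [E_qExpansion_coeff_zero _ ⟨4, rfl⟩] at h5
      have h3 := h2.add (h5.const_mul (-1 : ℂ))
      have h4 : (1 : ℂ) * 1 + -1 * 1 = 0 := by ring
      rw [h4] at h3
      exact h3
  have h1 := congrFun h0 z
  simp only [Pi.add_apply, Pi.mul_apply, Pi.smul_apply, smul_eq_mul, Pi.zero_apply] at h1
  linear_combination -h1

lemma E10_eq (z : ℍ) : E10 z = E₄ z * E₆ z := by
  have h0 : ((E₄ : ℍ → ℂ) * (E₆ : ℍ → ℂ)) + (-1 : ℂ) • (E10 : ℍ → ℂ) = 0 := by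
    apply Pool.Agent.Y949.J.eq_zero_of_tendsto (k := 10) (by norm_num)
    · exact ((ModularFormClass.holo E₄).mul (ModularFormClass.holo E₆)).add
        ((ModularFormClass.holo E10).const_smul _)
    · intro γ
      have h2 : (E₄ : ℍ → ℂ) ∣[(4 : ℤ)] γ = E₄ := Pool.Agent.Y949.J.slash_modularForm E₄ γ
      have h2' : (E₆ : ℍ → ℂ) ∣[(6 : ℤ)] γ = E₆ := Pool.Agent.Y949.J.slash_modularForm E₆ γ
      have h3 : (E10 : ℍ → ℂ) ∣[(10 : ℤ)] γ = E10 := Pool.Agent.Y949.J.slash_modularForm E10 γ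
      have h4 : ((E₄ : ℍ → ℂ) * (E₆ : ℍ → ℂ)) ∣[(10 : ℤ)] γ = (E₄ : ℍ → ℂ) * (E₆ : ℍ → ℂ) := by
        have := ModularForm.mul_slash_SL2 4 6 γ (E₄ : ℍ → ℂ) (E₆ : ℍ → ℂ)
        rw [h2, h2'] at this
        exact this
      rw [SlashAction.add_slash, h4, ModularForm.SL_smul_slash, h3]
    · have h2 := Pool.Agent.Y949.J.tendsto_E4.mul Pool.Agent.Y949.J.tendsto_E6
      have h5 := Pool.Agent.Y949.J.tendsto_modularForm E10
      rw [E_qExpansion_coeff_zero _ ⟨5, rfl⟩] at h5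
      have h3 := h2.add (h5.const_mul (-1 : ℂ))
      have h4 : (1 : ℂ) * 1 + -1 * 1 = 0 := by ring
      rw [h4] at h3
      exact h3
  have h1 := congrFun h0 z
  simp only [Pi.add_apply, Pi.mul_apply, Pi.smul_apply, smul_eq_mul, Pi.zero_apply] at h1
  linear_combination -h1

/-- real coefficients of `E₈` -/
def c8 (n : ℕ) : ℝ := if n = 0 then 1 else 480 * ArithmeticFunction.sigma 7 n
/-- real coefficients of `E₁₀` -/
def c10 (n : ℕ) : ℝ := if n = 0 then 1 else -264 * ArithmeticFunction.sigma 9 n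

lemma hc8 (n : ℕ) : (qExpansion 1 (E8 : ℍ → ℂ)).coeff n = (c8 n : ℂ) := by
  have h := E_qExpansion_coeff (k := 8) (by norm_num) ⟨4, rfl⟩ n
  have hb : bernoulli 8 = -1 / 30 := by decide +kernel
  rw [hb] at h
  rw [h, c8]
  split_ifs <;> norm_num

lemma hc10 (n : ℕ) : (qExpansion 1 (E10 : ℍ → ℂ)).coeff n = (c10 n : ℂ) := by
  have h := E_qExpansion_coeff (k := 10) (by norm_num) ⟨5, rfl⟩ n
  have hb : bernoulli 10 = 5 / 66 := by decide +kernel
  rw [hb] at h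
  rw [h, c10]
  split_ifs <;> norm_num

lemma good_E8 : Good (E8 : ℍ → ℂ) := good_modular E8
lemma good_E10 : Good (E10 : ℍ → ℂ) := good_modular E10

lemma ax8 (t : ℝ) (ht : 0 < t) : ax (E8 : ℍ → ℂ) t = Q t * Q t := by
  rw [ax_eq _ t ht, E8_eq, vQ, ← Complex.ofReal_mul, Complex.ofReal_re]

lemma ax10 (t : ℝ) (ht : 0 < t) : ax (E10 : ℍ → ℂ) t = Q t * R t := by
  rw [ax_eq _ t ht, E10_eq, vQ, vR, ← Complex.ofReal_mul, Complex.ofReal_re]

lemma D8 (t : ℝ) (ht : 0 < t) : ax (D (E8 : ℍ → ℂ)) t = 2 / 3 * (P t * Q t ^ 2 - Q t * R t) := by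
  refine ax_D good_E8 (fun s => Q s * Q s) _ t ht (fun s hs => ax8 s hs) ?_
  have h := (dQ t ht).mul (dQ t ht)
  convert! h using 1
  ring

lemma DD8 (t : ℝ) (ht : 0 < t) : ax (D (D (E8 : ℍ → ℂ))) t =
    1 / 18 * (9 * P t ^ 2 * Q t ^ 2 + 5 * Q t ^ 3 - 18 * P t * Q t * R t + 4 * R t ^ 2) := by
  refine ax_D (good_D good_E8) (fun s => 2 / 3 * (P s * Q s ^ 2 - Q s * R s)) _ t ht
    (fun s hs => D8 s hs) ?_
  have h := (((dP t ht).mul ((dQ t ht).pow 2)).sub ((dQ t ht).mul (dR t ht))).const_mul (2 / 3)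
  convert! h using 1
  simp only [Pi.pow_apply, Nat.cast_ofNat]
  ring

lemma D10 (t : ℝ) (ht : 0 < t) : ax (D (E10 : ℍ → ℂ)) t =
    1 / 6 * (5 * P t * Q t * R t - 2 * R t ^ 2 - 3 * Q t ^ 3) := by
  refine ax_D good_E10 (fun s => Q s * R s) _ t ht (fun s hs => ax10 s hs) ?_
  have h := (dQ t ht).mul (dR t ht)
  convert! h using 1
  ring

/-! ### the discriminant -/

lemma prod_bound (x : ℕ → ℝ) (h0 : ∀ n, 0 ≤ x n) (h1 : ∀ n, x n ≤ 1) (s : Finset ℕ) :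
    1 - ∑ n ∈ s, x n ≤ ∏ n ∈ s, (1 - x n) := by
  classical
  induction s using Finset.induction_on with
  | empty => simp
  | insert a s ha ih =>
    rw [Finset.sum_insert ha, Finset.prod_insert ha]
    have hp : ∏ n ∈ s, (1 - x n) ≤ 1 :=
      Finset.prod_le_one (fun i _ => by linarith [h1 i]) (fun i _ => by linarith [h0 i])
    have hp0 : 0 ≤ ∏ n ∈ s, (1 - x n) := Finset.prod_nonneg (fun i _ => by linarith [h1 i])
    nlinarith [h0 a, h1 a]

lemma disc_lower {τ : ℍ} (h : τ.re = 0) :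
    ∃ r : ℝ, rr τ * (1 - 24 * (rr τ / (1 - rr τ))) ≤ r ∧ ModularForm.discriminant τ = (r : ℂ) := by
  have hr0 := rr_pos τ
  have hr1 : rr τ < 1 := by
    unfold rr
    rw [Real.exp_lt_one_iff]
    have := Real.pi_pos
    have := τ.im_pos
    nlinarith [mul_pos Real.pi_pos τ.im_pos]
  have h1 : ModularForm.discriminant τ =
      Function.Periodic.qParam 1 (τ : ℂ) * (∏' n, (1 - eta_q n τ)) ^ 24 := by
    rw [discriminant_eq_q_prod]
    congr 1
    exact (multipliableLocallyUniformlyOn_eta.multipliable τ.2).tprod_pow _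
  have hq : ∀ n, (1 - eta_q n (τ : ℂ)) = ((1 - rr τ ^ (n + 1) : ℝ) : ℂ) := by
    intro n
    have : eta_q n (τ : ℂ) = ((rr τ ^ (n + 1) : ℝ) : ℂ) := by
      rw [eta_q_eq_pow]
      have := qParam_eq h
      simp only [Function.Periodic.qParam, ofReal_one, div_one] at this
      rw [this]; push_cast; rfl
    rw [this]; push_cast; rfl
  have hm := (multipliableLocallyUniformlyOn_eta.multipliable τ.2).hasProd
  have hsum : HasSum (fun n : ℕ => rr τ ^ (n + 1)) (rr τ / (1 - rr τ)) := by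
    have := (hasSum_geometric_of_lt_one hr0.le hr1).mul_left (rr τ)
    rw [← div_eq_mul_inv] at this
    refine this.congr_fun ?_ |> fun h => h
    intro n
    ring
  have hcl : IsClosed {z : ℂ | z.im = 0 ∧ 1 - rr τ / (1 - rr τ) ≤ z.re} :=
    (isClosed_eq Complex.continuous_im continuous_const).inter
      (isClosed_le continuous_const Complex.continuous_re)
  have hP : (∏' n, (1 - eta_q n (τ : ℂ))) ∈ {z : ℂ | z.im = 0 ∧ 1 - rr τ / (1 - rr τ) ≤ z.re} := by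
    refine hcl.mem_of_tendsto hm (Eventually.of_forall fun s => ?_)
    have hs : ∏ b ∈ s, (1 - eta_q b (τ : ℂ)) = ((∏ b ∈ s, (1 - rr τ ^ (b + 1)) : ℝ) : ℂ) := by
      push_cast
      refine Finset.prod_congr rfl fun b _ => ?_
      rw [hq b]; push_cast; rfl
    show (∏ b ∈ s, (1 - eta_q b (τ : ℂ))).im = 0 ∧ _ ≤ (∏ b ∈ s, (1 - eta_q b (τ : ℂ))).re
    rw [hs, Complex.ofReal_im, Complex.ofReal_re]
    refine ⟨rfl, ?_⟩
    have hb := prod_bound (fun n => rr τ ^ (n + 1)) (fun n => by positivity)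
      (fun n => pow_le_one₀ hr0.le hr1.le) s
    have hs2 : ∑ n ∈ s, rr τ ^ (n + 1) ≤ rr τ / (1 - rr τ) :=
      sum_le_hasSum s (fun n _ => by positivity) hsum
    linarith
  obtain ⟨p, hp, hpl⟩ : ∃ p : ℝ, (∏' n, (1 - eta_q n (τ : ℂ))) = (p : ℂ) ∧
      1 - rr τ / (1 - rr τ) ≤ p := by
    refine ⟨(∏' n, (1 - eta_q n (τ : ℂ))).re, Complex.ext (by simp) ?_, hP.2⟩
    rw [Complex.ofReal_im]; exact hP.1
  refine ⟨rr τ * p ^ 24, ?_, ?_⟩
  · apply mul_le_mul_of_nonneg_left _ hr0.le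
    rcases le_or_gt 0 p with hp0 | hp0
    · have hB := one_add_mul_le_pow (a := p - 1) (by linarith) 24
      have e : 1 + (p - 1) = p := by ring
      rw [e] at hB
      push_cast at hB
      linarith
    · have : 0 ≤ p ^ 24 := by positivity
      linarith
  · rw [h1, hp, qParam_eq h]; push_cast; rfl

/-! ### divisor sums -/

lemma sum_inv_pow (N : ℕ) : ∑ e ∈ Finset.Icc 1 (N + 1), (1 : ℝ) / (e : ℝ) ^ 7 ≤
    3 / 2 - 1 / (2 * ((N : ℝ) + 1)) := by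
  induction N with
  | zero => norm_num
  | succ N ih =>
    rw [← Finset.insert_Icc_right_eq_Icc_add_one (by omega), Finset.sum_insert (by simp)]
    have h1 : (1 : ℝ) / ((N + 1 + 1 : ℕ) : ℝ) ^ 7 ≤ 1 / (2 * ((N : ℝ) + 1)) - 1 / (2 * ((N : ℝ) + 2)) := by
      have hN : (0 : ℝ) ≤ N := Nat.cast_nonneg N
      rw [div_sub_div _ _ (by positivity) (by positivity), div_le_div_iff₀ (by positivity) (by positivity)]
      push_cast
      have h2 : (1 : ℝ) ≤ ((N : ℝ) + 2) ^ 4 := one_le_pow₀ (by linarith)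
      have h3 : (2 : ℝ) * ((N : ℝ) + 1) * ((N : ℝ) + 2) ≤ ((N : ℝ) + 2) ^ 3 := by nlinarith [sq_nonneg ((N : ℝ))]
      have h4 : ((N : ℝ) + 2) ^ 3 ≤ ((N : ℝ) + 2) ^ 7 := by
        calc ((N : ℝ) + 2) ^ 3 = ((N : ℝ) + 2) ^ 3 * 1 := by ring
          _ ≤ ((N : ℝ) + 2) ^ 3 * ((N : ℝ) + 2) ^ 4 := by
            apply mul_le_mul_of_nonneg_left h2 (by positivity)
          _ = _ := by ring
      have e : ((N : ℝ) + 1 + 1) = (N : ℝ) + 2 := by ring
      rw [e]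
      nlinarith
    push_cast at h1 ih ⊢
    have e : ((N : ℝ) + 1 + 1) = (N : ℝ) + 2 := by ring
    rw [e] at h1 ⊢
    linarith

lemma sigma7_le (n : ℕ) (hn : 1 ≤ n) :
    (ArithmeticFunction.sigma 7 n : ℝ) ≤ 3 / 2 * (n : ℝ) ^ 7 := by
  rw [ArithmeticFunction.sigma_apply, ← Nat.sum_div_divisors]
  push_cast
  have h1 : ∀ d ∈ n.divisors, (((n / d : ℕ) : ℝ)) ^ 7 = (n : ℝ) ^ 7 * (1 / (d : ℝ) ^ 7) := by
    intro d hd
    have hd' := Nat.dvd_of_mem_divisors hd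
    have hd0 : (d : ℝ) ≠ 0 := by
      have := Nat.pos_of_mem_divisors hd
      exact_mod_cast this.ne'
    rw [Nat.cast_div hd' hd0]
    field_simp
  rw [Finset.sum_congr rfl h1, ← Finset.mul_sum]
  have h2 : ∑ d ∈ n.divisors, (1 : ℝ) / (d : ℝ) ^ 7 ≤ ∑ d ∈ Finset.Icc 1 n, (1 : ℝ) / (d : ℝ) ^ 7 := by
    apply Finset.sum_le_sum_of_subset_of_nonneg
    · intro d hd
      rw [Finset.mem_Icc]
      exact ⟨Nat.pos_of_mem_divisors hd, Nat.divisor_le hd⟩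
    · intro i _ _; positivity
  obtain ⟨N, rfl⟩ : ∃ N, n = N + 1 := ⟨n - 1, by omega⟩
  have h3 := sum_inv_pow N
  have h4 : ∑ d ∈ (N + 1).divisors, (1 : ℝ) / (d : ℝ) ^ 7 ≤ 3 / 2 := by
    have : (0 : ℝ) ≤ 1 / (2 * ((N : ℝ) + 1)) := by positivity
    linarith
  calc _ ≤ ((N + 1 : ℕ) : ℝ) ^ 7 * (3 / 2) := mul_le_mul_of_nonneg_left h4 (by positivity)
    _ = _ := by ring

lemma sigma9_ge (n : ℕ) (hn : 1 ≤ n) : (n : ℝ) ^ 9 ≤ (ArithmeticFunction.sigma 9 n : ℝ) := by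
  rw [ArithmeticFunction.sigma_apply]
  have : n ^ 9 ≤ ∑ d ∈ n.divisors, d ^ 9 :=
    Finset.single_le_sum (f := fun d => d ^ 9) (fun _ _ => Nat.zero_le _)
      (Nat.mem_divisors_self n (by omega))
  exact_mod_cast this

lemma coeff_ge (n : ℕ) (hn : 4 ≤ n) : (359424 : ℝ) ≤
    14256 * (n : ℝ) * ArithmeticFunction.sigma 9 n - 28800 * (n : ℝ) ^ 2 * ArithmeticFunction.sigma 7 n := by
  have h7 := sigma7_le n (by omega)
  have h9 := sigma9_ge n (by omega)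
  have hn' : (4 : ℝ) ≤ n := by exact_mod_cast hn
  have h1 : 14256 * (n : ℝ) * (n : ℝ) ^ 9 ≤ 14256 * (n : ℝ) * ArithmeticFunction.sigma 9 n :=
    mul_le_mul_of_nonneg_left h9 (by positivity)
  have h2 : 28800 * (n : ℝ) ^ 2 * ArithmeticFunction.sigma 7 n ≤
      28800 * (n : ℝ) ^ 2 * (3 / 2 * (n : ℝ) ^ 7) := mul_le_mul_of_nonneg_left h7 (by positivity)
  have h3 : (4 : ℝ) ^ 9 ≤ (n : ℝ) ^ 9 := pow_le_pow_left₀ (by norm_num) hn' 9
  have h4 : (n : ℝ) ^ 9 * (14256 * n - 43200) ≥ 4 ^ 9 * (14256 * 4 - 43200) := by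
    apply mul_le_mul h3 (by linarith) (by norm_num) (by positivity)
  nlinarith

lemma sigma35 (n : ℕ) :
    (n : ℝ) * ArithmeticFunction.sigma 3 n ≤ ArithmeticFunction.sigma 5 n := by
  rw [ArithmeticFunction.sigma_apply, ArithmeticFunction.sigma_apply]
  push_cast
  rw [Finset.mul_sum]
  have h1 : ∀ d ∈ n.divisors, (n : ℝ) * (d : ℝ) ^ 3 ≤
      4 / 5 * (d : ℝ) ^ 5 + 1 / 5 * ((n / d : ℕ) : ℝ) ^ 5 := by
    intro d hd
    have hd' := Nat.dvd_of_mem_divisors hd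
    have hd0 : (d : ℝ) ≠ 0 := by
      have := Nat.pos_of_mem_divisors hd
      exact_mod_cast this.ne'
    have e : (n : ℝ) = (d : ℝ) * ((n / d : ℕ) : ℝ) := by
      rw [← Nat.cast_mul, Nat.mul_div_cancel' hd']
    rw [e]
    have ha : (0 : ℝ) ≤ (d : ℝ) := Nat.cast_nonneg _
    have hb : (0 : ℝ) ≤ ((n / d : ℕ) : ℝ) := Nat.cast_nonneg _
    generalize (d : ℝ) = a at *
    generalize ((n / d : ℕ) : ℝ) = b at *
    have key : 4 * a ^ 5 + b ^ 5 - 5 * a ^ 4 * b = (a - b) ^ 2 * (4 * a ^ 3 + 3 * a ^ 2 * b + 2 * a * b ^ 2 + b ^ 3) := by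
      ring
    have : 0 ≤ (a - b) ^ 2 * (4 * a ^ 3 + 3 * a ^ 2 * b + 2 * a * b ^ 2 + b ^ 3) := by positivity
    nlinarith
  refine (Finset.sum_le_sum h1).trans ?_
  rw [Finset.sum_add_distrib, ← Finset.mul_sum, ← Finset.mul_sum]
  have h2 : ∑ d ∈ n.divisors, ((n / d : ℕ) : ℝ) ^ 5 = ∑ d ∈ n.divisors, (d : ℝ) ^ 5 :=
    Nat.sum_div_divisors n (fun d => (d : ℝ) ^ 5)
  rw [h2]
  linarith

/-! ### the inequalities -/

lemma rr_lt_one (τ : ℍ) : rr τ < 1 := by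
  unfold rr
  rw [Real.exp_lt_one_iff]
  nlinarith [mul_pos Real.pi_pos τ.im_pos]

lemma posQ (t : ℝ) (ht : 0 < t) : 0 < Q t := by
  have h := sum_ax good_E4 c4 hc4 t ht
  have h2 : c4 0 * rr (pt t ht) ^ 0 ≤ Q t := by
    refine le_hasSum h 0 fun n hn => ?_
    have : 0 ≤ c4 n := by
      unfold c4
      split_ifs <;> positivity
    exact mul_nonneg this (pow_nonneg (rr_pos _).le _)
  simp [c4] at h2
  linarith

lemma posN (t : ℝ) (ht : 0 < t) : P t ^ 2 < Q t := by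
  have h := sum_ax (good_D good_E2) (fun n => (n : ℝ) * c2 n) (coeff_D good_E2 c2 hc2) t ht
  rw [DP t ht] at h
  have hr := rr_pos (pt t ht)
  have h2 := hasSum_lt (f := fun n : ℕ => (n : ℝ) * c2 n * rr (pt t ht) ^ n) (g := fun _ => (0 : ℝ))
    (i := 1) (fun n => ?_) ?_ h hasSum_zero
  · linarith
  · have : (n : ℝ) * c2 n ≤ 0 := by
      unfold c2
      split_ifs with h0
      · simp [h0]
      · have : (0 : ℝ) ≤ ArithmeticFunction.sigma 1 n := by positivity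
        have hn : (0 : ℝ) ≤ n := Nat.cast_nonneg n
        nlinarith [mul_nonneg hn this]
    exact mul_nonpos_of_nonpos_of_nonneg this (pow_nonneg hr.le n)
  · simp [c2]
    exact hr

lemma I2 (t : ℝ) (ht : 0 < t) :
    0 < 5 * Q t ^ 2 - 7 * P t ^ 2 * Q t + 2 * P t * R t := by
  have h6 := sum_ax (good_D good_E6) (fun n => (n : ℝ) * c6 n) (coeff_D good_E6 c6 hc6) t ht
  have h4 := sum_ax (good_D (good_D good_E4)) (fun n => (n : ℝ) * ((n : ℝ) * c4 n))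
    (coeff_D (good_D good_E4) _ (coeff_D good_E4 c4 hc4)) t ht
  rw [DR t ht] at h6
  rw [DDQ t ht] at h4
  have hr := rr_pos (pt t ht)
  have h := (h6.mul_left (-24)).add (h4.mul_left (-(252 / 5)))
  have e : -24 * ((P t * R t - Q t ^ 2) / 2) + -(252 / 5) * (5 / 36 * (P t ^ 2 * Q t + Q t ^ 2 - 2 * P t * R t)) =
      5 * Q t ^ 2 - 7 * P t ^ 2 * Q t + 2 * P t * R t := by ring
  rw [e] at h
  have key : ∀ n : ℕ, -24 * ((n : ℝ) * c6 n * rr (pt t ht) ^ n) +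
      -(252 / 5) * ((n : ℝ) * ((n : ℝ) * c4 n) * rr (pt t ht) ^ n) =
      12096 * (n : ℝ) * ((ArithmeticFunction.sigma 5 n : ℝ) - n * ArithmeticFunction.sigma 3 n) *
        rr (pt t ht) ^ n := by
    intro n
    unfold c4 c6
    split_ifs with h0
    · simp [h0]
    · ring
  refine hasSum_lt (f := fun _ => (0 : ℝ)) (i := 2) (fun n => ?_) ?_ hasSum_zero h
  · show (0 : ℝ) ≤ _
    rw [key]
    have := sigma35 n
    have h1 : 0 ≤ (ArithmeticFunction.sigma 5 n : ℝ) - n * ArithmeticFunction.sigma 3 n := by linarith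
    positivity
  · show (0 : ℝ) < _
    rw [key]
    have s5 : ArithmeticFunction.sigma 5 2 = 33 := by decide +kernel
    have s3 : ArithmeticFunction.sigma 3 2 = 9 := by decide +kernel
    rw [s5, s3]
    have : 0 < rr (pt t ht) ^ 2 := by positivity
    push_cast
    linarith

lemma I1 (t : ℝ) (ht : 0 < t) :
    0 < 19 * Q t ^ 3 - 30 * P t ^ 2 * Q t ^ 2 + 15 * P t * Q t * R t - 4 * R t ^ 2 := by
  have h10 := sum_ax (good_D good_E10) (fun n => (n : ℝ) * c10 n) (coeff_D good_E10 c10 hc10) t ht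
  have h8 := sum_ax (good_D (good_D good_E8)) (fun n => (n : ℝ) * ((n : ℝ) * c8 n))
    (coeff_D (good_D good_E8) _ (coeff_D good_E8 c8 hc8)) t ht
  rw [D10 t ht] at h10
  rw [DD8 t ht] at h8
  have hr := rr_pos (pt t ht)
  have hr1 := rr_lt_one (pt t ht)
  obtain ⟨r, hr2, hr3⟩ := disc_lower (pt_re t ht)
  have hdisc : 1728 * r = Q t ^ 3 - R t ^ 2 := by
    have h := ModularForm.discriminant_eq_E₄_cube_sub_E₆_sq (pt t ht)
    rw [vQ, vR, hr3] at h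
    have h' : ((1728 * r : ℝ) : ℂ) = ((Q t ^ 3 - R t ^ 2 : ℝ) : ℂ) := by
      push_cast
      rw [h]; ring
    exact_mod_cast h'
  set q := rr (pt t ht) with hq
  -- the sum of the lower bound for the discriminant
  have hgeo : HasSum (fun n : ℕ => q ^ n) (1 - q)⁻¹ := hasSum_geometric_of_lt_one hr.le hr1
  have hd : HasSum (fun n : ℕ => (if n = 0 then 24 else if n = 1 then 25 else 0 : ℝ) * q ^ n -
      24 * q ^ n) (q * (1 - 24 * (q / (1 - q)))) := by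
    have h1 : HasSum (fun n : ℕ => (if n = 0 then 24 else if n = 1 then 25 else 0 : ℝ) * q ^ n)
        (24 + 25 * q) := by
      have h0 : ∀ b ∉ Finset.range 2,
          (if b = 0 then 24 else if b = 1 then 25 else 0 : ℝ) * q ^ b = 0 := by
        intro b hb
        have hb' : 2 ≤ b := not_lt.mp (fun h => hb (Finset.mem_range.mpr h))
        rw [if_neg (by omega), if_neg (by omega), zero_mul]
      have := hasSum_sum_of_ne_finset_zero (L := SummationFilter.unconditional ℕ) h0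
      simpa [Finset.sum_range_succ] using this
    have h2 := h1.sub (hgeo.mul_left 24)
    convert! h2 using 1
    have : (1 - q) ≠ 0 := by linarith
    field_simp
    ring
  have h := ((h10.mul_left (-54)).add (h8.mul_left (-60))).add (hd.mul_left 14976)
  have hle : -54 * (1 / 6 * (5 * P t * Q t * R t - 2 * R t ^ 2 - 3 * Q t ^ 3)) +
      -60 * (1 / 18 * (9 * P t ^ 2 * Q t ^ 2 + 5 * Q t ^ 3 - 18 * P t * Q t * R t + 4 * R t ^ 2)) +
      14976 * (q * (1 - 24 * (q / (1 - q)))) ≤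
      19 * Q t ^ 3 - 30 * P t ^ 2 * Q t ^ 2 + 15 * P t * Q t * R t - 4 * R t ^ 2 := by
    nlinarith
  refine lt_of_lt_of_le ?_ hle
  have key : ∀ n : ℕ, 2 ≤ n → -54 * ((n : ℝ) * c10 n * q ^ n) +
      -60 * ((n : ℝ) * ((n : ℝ) * c8 n) * q ^ n) +
      14976 * ((if n = 0 then 24 else if n = 1 then 25 else 0 : ℝ) * q ^ n - 24 * q ^ n) =
      (14256 * (n : ℝ) * ArithmeticFunction.sigma 9 n -
        28800 * (n : ℝ) ^ 2 * ArithmeticFunction.sigma 7 n - 359424) * q ^ n := by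
    intro n hn
    unfold c8 c10
    rw [if_neg (by omega), if_neg (by omega), if_neg (by omega), if_neg (by omega)]
    ring
  have hlow := sum_le_hasSum (Finset.range 4) (fun n hn => ?_) h
  · refine lt_of_lt_of_le ?_ hlow
    rw [Finset.sum_range_succ, Finset.sum_range_succ, Finset.sum_range_succ, Finset.sum_range_one]
    rw [key 2 (by norm_num), key 3 (by norm_num)]
    have a1 : ArithmeticFunction.sigma 9 2 = 513 := by decide +kernel
    have a2 : ArithmeticFunction.sigma 7 2 = 129 := by decide +kernel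
    have a3 : ArithmeticFunction.sigma 9 3 = 19684 := by decide +kernel
    have a4 : ArithmeticFunction.sigma 7 3 = 2188 := by decide +kernel
    rw [a1, a2, a3, a4]
    simp only [c8, c10]
    norm_num
    have hpos : 0 < 432 - 593568 * q + 274356288 * q ^ 2 := by
      nlinarith [sq_nonneg (q - 593568 / (2 * 274356288))]
    nlinarith [mul_pos hr hpos]
  · have hn' : 4 ≤ n := by simpa using hn
    rw [key n (by omega)]
    have := coeff_ge n hn'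
    exact mul_nonneg (by linarith) (pow_nonneg hr.le n)

/-! ### the transformation `t ↦ 1/t` -/

lemma E4_S (τ : ℍ) : E₄ (ModularGroup.S • τ) = (τ : ℂ) ^ 4 * E₄ τ := by
  have h := SlashInvariantForm.slash_action_eqn' (Γ := 𝒮ℒ) E₄
    (show ((ModularGroup.S : SL(2, ℤ)) : GL (Fin 2) ℝ) ∈ 𝒮ℒ from ⟨ModularGroup.S, rfl⟩) τ
  have h10 : (((ModularGroup.S : SL(2, ℤ)) : GL (Fin 2) ℝ) 1 0 : ℝ) = 1 := by
    have : ((ModularGroup.S : SL(2, ℤ)) 1 0 : ℤ) = 1 := by decide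
    show (((ModularGroup.S : SL(2, ℤ)) 1 0 : ℤ) : ℝ) = 1
    rw [this]; norm_num
  have h11 : (((ModularGroup.S : SL(2, ℤ)) : GL (Fin 2) ℝ) 1 1 : ℝ) = 0 := by
    have : ((ModularGroup.S : SL(2, ℤ)) 1 1 : ℤ) = 0 := by decide
    show (((ModularGroup.S : SL(2, ℤ)) 1 1 : ℤ) : ℝ) = 0
    rw [this]; norm_num
  rw [h10, h11] at h
  have e : ((1 : ℝ) : ℂ) * (τ : ℂ) + ((0 : ℝ) : ℂ) = τ := by push_cast; ring
  rw [e] at h
  exact h

lemma S_pt (t : ℝ) (ht : 0 < t) : ModularGroup.S • pt t ht = pt (1 / t) (by positivity) := by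
  obtain ⟨h1, h2⟩ := S_axis (pt_re t ht)
  apply UpperHalfPlane.ext
  apply Complex.ext
  · show (ModularGroup.S • pt t ht).re = (pt (1 / t) (by positivity)).re
    rw [h1, pt_re]
  · show (ModularGroup.S • pt t ht).im = (pt (1 / t) (by positivity)).im
    rw [h2, pt_im, pt_im]

lemma sP (t : ℝ) (ht : 0 < t) : P (1 / t) = -(t ^ 2 * P t) + 6 * t / π := by
  have h := Pool.Agent.R396.WJ.E2_S (pt t ht)
  rw [S_pt, vP, vP, pt_coe] at h
  have hpi : (π : ℂ) ≠ 0 := by exact_mod_cast Real.pi_ne_zero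
  have h2 : ((P (1 / t) : ℝ) : ℂ) = ((-(t ^ 2 * P t) + 6 * t / π : ℝ) : ℂ) := by
    rw [h]
    push_cast
    linear_combination (((t : ℂ) ^ 2 * ((P t : ℝ) : ℂ)) - 6 * t / π) * I_sq
  exact_mod_cast h2

lemma sQ (t : ℝ) (ht : 0 < t) : Q (1 / t) = t ^ 4 * Q t := by
  have h := E4_S (pt t ht)
  rw [S_pt, vQ, vQ, pt_coe] at h
  have h2 : ((Q (1 / t) : ℝ) : ℂ) = ((t ^ 4 * Q t : ℝ) : ℂ) := by
    rw [h]
    push_cast
    linear_combination ((t : ℂ) ^ 4 * ((Q t : ℝ) : ℂ)) * (I ^ 2 - 1) * I_sq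
  exact_mod_cast h2

lemma sR (t : ℝ) (ht : 0 < t) : R (1 / t) = -(t ^ 6 * R t) := by
  have h := E6_S (pt t ht)
  rw [S_pt, vR, vR, pt_coe] at h
  have h2 : ((R (1 / t) : ℝ) : ℂ) = ((-(t ^ 6 * R t) : ℝ) : ℂ) := by
    rw [h]
    push_cast
    linear_combination ((t : ℂ) ^ 6 * ((R t : ℝ) : ℂ)) * (I ^ 4 - I ^ 2 + 1) * I_sq
  exact_mod_cast h2

/-! ### limits -/

lemma tendsto_ax {F : ℍ → ℂ} (h : Tendsto F atImInfty (𝓝 1)) : Tendsto (ax F) atTop (𝓝 1) := by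
  have h1 : Tendsto (fun t : ℝ => ofComplex (I * (t : ℂ))) atTop atImInfty := by
    rw [atImInfty, tendsto_comap_iff]
    have : (UpperHalfPlane.im ∘ fun t : ℝ => ofComplex (I * (t : ℂ))) =ᶠ[atTop] (fun t : ℝ => t) := by
      filter_upwards [eventually_gt_atTop 0] with t ht
      simp only [comp_apply]
      rw [ofComplex_I t ht, pt_im]
    exact (tendsto_congr' this).mpr tendsto_id
  have h2 := (Complex.continuous_re.tendsto 1).comp (h.comp h1)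
  rw [Complex.one_re] at h2
  exact h2

end

end Pool.Agent.R396.XQ.AX

namespace Pool.Agent.R396.XQ

/-- D1: the facts hold for the Eisenstein series. -/
theorem jobAx : JobAx :=
  { dP := AX.dP
    dQ := AX.dQ
    dR := AX.dR
    sP := AX.sP
    sQ := AX.sQ
    sR := AX.sR
    lP := AX.tendsto_ax Pool.Agent.Y949.J.tendsto_E2
    lQ := AX.tendsto_ax Pool.Agent.Y949.J.tendsto_E4
    lR := AX.tendsto_ax Pool.Agent.Y949.J.tendsto_E6
    posQ := AX.posQ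
    posN := AX.posN
    I1 := AX.I1
    I2 := AX.I2 }

end Pool.Agent.R396.XQ
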