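import Pool.Agent.R396.XQ.Ord

set_option autoImplicit false

/-!
# The extremal quasimodular forms of weight `6 k`
-/

namespace Pool.Agent.R396.XQ

open UpperHalfPlane hiding I
open Real Filter Topology Derivative EisensteinSeries ModularForm MatrixGroups
open scoped Manifold MatrixGroups ModularForm
open Pool.Agent.R396.QM Pool.Agent.R322.QD

noncomputable section

namespace KO

theorem th_add (A B : PowerSeries ℂ) : th (A + B) = th A + th B := by
  ext n
  simp only [coeff_th, map_add]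
  ring

theorem th_sub (A B : PowerSeries ℂ) : th (A - B) = th A - th B := by
  ext n
  simp only [coeff_th, map_sub]
  ring

theorem th_C (c : ℂ) : th (PowerSeries.C c) = 0 := by
  ext n
  rw [coeff_th, PowerSeries.coeff_C]
  split_ifs with h
  · subst h; simp
  · simp

theorem th_natCast (c : ℕ) : th (c : PowerSeries ℂ) = 0 := by
  have : (c : PowerSeries ℂ) = PowerSeries.C (c : ℂ) := by simp
  rw [this, th_C]

theorem th_ofNat (c : ℕ) [c.AtLeastTwo] : th (OfNat.ofNat c : PowerSeries ℂ) = 0 := by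
  have := th_natCast (OfNat.ofNat c)
  rwa [Nat.cast_ofNat] at this

/-- the main computation -/
theorem main_id (K P Q R F G F1 G1 F2 G2 : PowerSeries ℂ) (hK : th K = 0)
    (h1 : 12 * th F = 12 * F1 + 6 * K * P * F)
    (h2 : 12 * th F1 = 12 * F2 + (6 * K + 2) * P * F1)
    (h3 : 12 * th G = 12 * G1 + (6 * K - 2) * P * G)
    (h4 : 12 * th G1 = 12 * G2 + 6 * K * P * G1)
    (h5 : 12 * th P = P ^ 2 - Q) (h6 : 3 * th Q = P * Q - R) :
    144 * (2 * th (th (F + P * G)) - 2 * K * P * th (F + P * G) +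
      K * (6 * K - 1) * th P * (F + P * G)) =
    (288 * F2 - 72 * K ^ 2 * Q * F - 48 * Q * G1 + 8 * R * G) +
      P * (48 * F1 + 288 * G2 - 72 * K ^ 2 * Q * G) := by
  have t0 : ∀ A : PowerSeries ℂ, th (12 * A) = 12 * th A := fun A => by
    rw [th_mul, th_ofNat]; ring
  have t1 : ∀ A : PowerSeries ℂ, th (6 * K * A) = 6 * K * th A := fun A => by
    rw [th_mul, th_mul, th_ofNat, hK]; ring
  have t2 : ∀ A : PowerSeries ℂ, th (2 * A) = 2 * th A := fun A => by
    rw [th_mul, th_ofNat]; ring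
  have d1 : 12 * th (th F) = 12 * th F1 + 6 * K * (th P * F + P * th F) := by
    have := congrArg th h1
    rw [th_add, t0, t0, mul_assoc, t1, th_mul] at this
    exact this
  have d3 : 12 * th (th G) = 12 * th G1 + (6 * K - 2) * (th P * G + P * th G) := by
    have := congrArg th h3
    rw [th_add, t0, t0, mul_assoc, sub_mul, th_sub, t1, t2, th_mul] at this
    linear_combination this
  have d5 : 12 * th (th P) = 2 * P * th P - th Q := by
    have := congrArg th h5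
    rw [t0, th_sub, sq, th_mul] at this
    linear_combination this
  have e1 : th (F + P * G) = th F + (th P * G + P * th G) := by rw [th_add, th_mul]
  have e2 : th (th (F + P * G)) = th (th F) + ((th (th P) * G + th P * th G) +
      (th P * th G + P * th (th G))) := by
    rw [e1, th_add, th_add, th_mul, th_mul]
  rw [e2, e1]
  linear_combination 24 * d1 + 24 * h2 - 12 * K * P * h1 + 72 * K ^ 2 * F * h5 + 24 * P * d3 +
    24 * P * h4 + 24 * G * d5 - 8 * G * h6 + 48 * th P * h3 - (12 * K + 4) * P ^ 2 * h3 +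
    (P * G * (72 * K ^ 2 - 8) + 48 * G1) * h5

/-- `F` has the power series `A` as `q`-expansion -/
def PS (F : ℍ → ℂ) (A : PowerSeries ℂ) : Prop := HasQ F (fun n => A.coeff n)

theorem PS.mul {F G : ℍ → ℂ} {A B : PowerSeries ℂ} (hF : PS F A) (hG : PS G B) :
    PS (fun τ => F τ * G τ) (A * B) := by
  have := AS.hasQ_mul hF hG
  unfold PS
  simp only [PowerSeries.coeff_mul]
  exact this

theorem PS.lin {F G : ℍ → ℂ} {A B : PowerSeries ℂ} (hF : PS F A) (hG : PS G B) (a b : ℂ) :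
    PS (fun τ => a * F τ + b * G τ) (PowerSeries.C a * A + PowerSeries.C b * B) := by
  have := AS.hasQ_lin hF hG a b
  unfold PS
  simp only [map_add, PowerSeries.coeff_C_mul]
  exact this

theorem PS.add {F G : ℍ → ℂ} {A B : PowerSeries ℂ} (hF : PS F A) (hG : PS G B) :
    PS (fun τ => F τ + G τ) (A + B) := by
  have := PS.lin hF hG 1 1
  simpa using this

theorem PS.sub {F G : ℍ → ℂ} {A B : PowerSeries ℂ} (hF : PS F A) (hG : PS G B) :
    PS (fun τ => F τ - G τ) (A - B) := by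
  have := PS.lin hF hG 1 (-1)
  simpa [sub_eq_add_neg] using this

theorem PS.cmul {F : ℍ → ℂ} {A : PowerSeries ℂ} (hF : PS F A) (a : ℂ) :
    PS (fun τ => a * F τ) (PowerSeries.C a * A) := by
  have := PS.lin hF hF a 0
  simpa using this

theorem PS.D {F : ℍ → ℂ} {A : PowerSeries ℂ} (hF : PS F A) : PS (D F) (th A) := by
  have := AS.hasQ_D hF
  unfold PS
  simp only [coeff_th]
  exact this

theorem PS.unique {F : ℍ → ℂ} {A B : PowerSeries ℂ} (hF : PS F A) (hG : PS F B) : A = B := by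
  ext n
  exact congrFun (HasQ.unique hF hG) n

theorem PS.ext {F G : ℍ → ℂ} {A : PowerSeries ℂ} (hF : PS F A) (hG : PS G A) : F = G := by
  funext τ
  exact (hF τ).unique (hG τ)

theorem ps_of_good {F : ℍ → ℂ} (h : Good F) : PS F (qExpansion 1 F) := AS.hasQ_of_good h

theorem ps_form {w : ℤ} (f : ModularForm 𝒮ℒ w) : PS f (qExpansion 1 (f : ℍ → ℂ)) :=
  ps_of_good (good_modular f)

theorem ps_E2 : PS E2 e2 := ps_of_good good_E2
theorem ps_E4 : PS (E₄ : ℍ → ℂ) e4 := ps_of_good good_E4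
theorem ps_E6 : PS (E₆ : ℍ → ℂ) e6 := ps_of_good good_E6

theorem th_e2 : 12 * th e2 = e2 ^ 2 - e4 := by
  have h1 := (PS.D ps_E2).cmul 12
  have h2 := (ps_E2.mul ps_E2).sub ps_E4
  have e : (fun τ => (12 : ℂ) * Derivative.normalizedDerivOfComplex E2 τ) = fun τ => E2 τ * E2 τ - E₄ τ := by
    funext τ
    rw [Pool.Agent.Y949.J.ram2]
    ring
  rw [e] at h1
  have h3 := h1.unique h2
  rw [sq, ← h3]
  congr 1

theorem th_e4 : 3 * th e4 = e2 * e4 - e6 := by
  have h3 := th4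
  rw [h3, two_smul_eq, ← mul_assoc]
  have : (3 : PowerSeries ℂ) * PowerSeries.C (3⁻¹ : ℂ) = 1 := by
    have h : (3 : PowerSeries ℂ) = PowerSeries.C (3 : ℂ) := (map_ofNat _ 3).symm
    rw [h, ← map_mul]
    norm_num
  rw [this, one_mul]

theorem serre_ps {w : ℤ} (f : ModularForm 𝒮ℒ w) (g : ModularForm 𝒮ℒ (w + 2))
    (hg : ∀ τ, g τ = Derivative.normalizedDerivOfComplex f τ - w / 12 * E2 τ * f τ) :
    12 * th (qExpansion 1 (f : ℍ → ℂ)) = 12 * qExpansion 1 (g : ℍ → ℂ) +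
      PowerSeries.C (w : ℂ) * e2 * qExpansion 1 (f : ℍ → ℂ) := by
  have h1 := (PS.D (ps_form f)).cmul 12
  have h2 := ((ps_form g).cmul 12).add ((ps_E2.mul (ps_form f)).cmul (w : ℂ))
  have e : (fun τ => (12 : ℂ) * Derivative.normalizedDerivOfComplex f τ) =
      fun τ => 12 * g τ + (w : ℂ) * (E2 τ * f τ) := by
    funext τ
    rw [hg]
    ring
  rw [e] at h1
  have h3 := h1.unique h2
  have e12 : PowerSeries.C (12 : ℂ) = (12 : PowerSeries ℂ) := map_ofNat _ 12
  rw [e12] at h3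
  rw [h3]
  ring

theorem C_ofNat (m : ℕ) [m.AtLeastTwo] :
    PowerSeries.C (OfNat.ofNat m : ℂ) = (OfNat.ofNat m : PowerSeries ℂ) := map_ofNat _ m

/-- the differential equation on the level of power series -/
theorem ode_ps (hO : JobOrd) (k : ℕ) (f : ModularForm 𝒮ℒ (6 * k : ℤ))
    (g : ModularForm 𝒮ℒ ((6 * k : ℤ) - 2))
    (h0 : ∀ n < k, (qExpansion 1 (f : ℍ → ℂ) + e2 * qExpansion 1 (g : ℍ → ℂ)).coeff n = 0) :
    2 * th (th (qExpansion 1 (f : ℍ → ℂ) + e2 * qExpansion 1 (g : ℍ → ℂ))) -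
      2 * (k : PowerSeries ℂ) * e2 *
        th (qExpansion 1 (f : ℍ → ℂ) + e2 * qExpansion 1 (g : ℍ → ℂ)) +
      (k : PowerSeries ℂ) * (6 * (k : PowerSeries ℂ) - 1) * th e2 *
        (qExpansion 1 (f : ℍ → ℂ) + e2 * qExpansion 1 (g : ℍ → ℂ)) = 0 := by
  obtain ⟨f1, hf1⟩ := AS.serre_form f
  obtain ⟨f2, hf2⟩ := AS.serre_form f1
  obtain ⟨g1, hg1⟩ := AS.serre_form g
  obtain ⟨g2, hg2⟩ := AS.serre_form g1
  have s1 := serre_ps f f1 hf1
  have s2 := serre_ps f1 f2 hf2
  have s3 := serre_ps g g1 hg1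
  have s4 := serre_ps g1 g2 hg2
  set F := qExpansion 1 (f : ℍ → ℂ) with hF
  set G := qExpansion 1 (g : ℍ → ℂ) with hG
  set F1 := qExpansion 1 (f1 : ℍ → ℂ) with hF1
  set F2 := qExpansion 1 (f2 : ℍ → ℂ) with hF2
  set G1 := qExpansion 1 (g1 : ℍ → ℂ) with hG1
  set G2 := qExpansion 1 (g2 : ℍ → ℂ) with hG2
  have c1 : PowerSeries.C (((6 * k : ℤ) : ℤ) : ℂ) = 6 * (k : PowerSeries ℂ) := by
    have : (((6 * k : ℤ) : ℤ) : ℂ) = ((6 * k : ℕ) : ℂ) := by push_cast; ring
    rw [this, map_natCast]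
    push_cast
    ring
  have c2 : PowerSeries.C (((6 * k + 2 : ℤ) : ℤ) : ℂ) = 6 * (k : PowerSeries ℂ) + 2 := by
    have : (((6 * k + 2 : ℤ) : ℤ) : ℂ) = ((6 * k + 2 : ℕ) : ℂ) := by push_cast; ring
    rw [this, map_natCast]
    push_cast
    ring
  have c3 : PowerSeries.C (((6 * k - 2 : ℤ) : ℤ) : ℂ) = 6 * (k : PowerSeries ℂ) - 2 := by
    have : (((6 * k - 2 : ℤ) : ℤ) : ℂ) = ((6 * k : ℕ) : ℂ) - ((2 : ℕ) : ℂ) := by push_cast; ring
    rw [this, map_sub, map_natCast, map_natCast]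
    push_cast
    ring
  have c4 : PowerSeries.C (((6 * k - 2 + 2 : ℤ) : ℤ) : ℂ) = 6 * (k : PowerSeries ℂ) := by
    have : (((6 * k - 2 + 2 : ℤ) : ℤ) : ℂ) = ((6 * k : ℕ) : ℂ) := by push_cast; ring
    rw [this, map_natCast]
    push_cast
    ring
  rw [c1] at s1
  rw [c2] at s2
  rw [c3] at s3
  rw [c4] at s4
  have key := main_id (k : PowerSeries ℂ) e2 e4 e6 F G F1 G1 F2 G2 (th_natCast k) s1 s2 s3 s4
    th_e2 th_e4
  set L := 2 * th (th (F + e2 * G)) - 2 * (k : PowerSeries ℂ) * e2 * th (F + e2 * G) +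
    (k : PowerSeries ℂ) * (6 * (k : PowerSeries ℂ) - 1) * th e2 * (F + e2 * G) with hL
  -- the two modular forms
  set f' : ModularForm 𝒮ℒ ((6 * k : ℤ) + 4) := (288 : ℂ) • f2.mcast (by ring) +
    (-(72 * (k : ℂ) ^ 2)) • (E₄.mul f).mcast (by push_cast; ring) +
    ((-48 : ℂ) • (E₄.mul g1).mcast (by push_cast; ring) + (8 : ℂ) • (E₆.mul g).mcast (by push_cast; ring)) with hf'
  set g' : ModularForm 𝒮ℒ ((6 * k : ℤ) + 4 - 2) := (48 : ℂ) • f1.mcast (by ring) +
    ((288 : ℂ) • g2.mcast (by ring) +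
      (-(72 * (k : ℂ) ^ 2)) • (E₄.mul g).mcast (by push_cast; ring)) with hg'
  have pf' : PS (fun τ => (288 * f2 τ + (-(72 * (k : ℂ) ^ 2)) * (E₄ τ * f τ)) +
      (-48 * (E₄ τ * g1 τ) + 8 * (E₆ τ * g τ))) _ :=
    ((ps_form f2).lin (ps_E4.mul (ps_form f)) 288 (-(72 * (k : ℂ) ^ 2))).add
      ((ps_E4.mul (ps_form g1)).lin (ps_E6.mul (ps_form g)) (-48) 8)
  have pg' : PS (fun τ => (48 * f1 τ) + (288 * g2 τ + (-(72 * (k : ℂ) ^ 2)) * (E₄ τ * g τ))) _ :=
    ((ps_form f1).cmul 48).add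
      ((ps_form g2).lin (ps_E4.mul (ps_form g)) 288 (-(72 * (k : ℂ) ^ 2)))
  have ef' : (fun τ => (288 * f2 τ + (-(72 * (k : ℂ) ^ 2)) * (E₄ τ * f τ)) +
      (-48 * (E₄ τ * g1 τ) + 8 * (E₆ τ * g τ))) = (f' : ℍ → ℂ) := by
    funext τ
    rw [hf']
    rfl
  have eg' : (fun τ => (48 * f1 τ) + (288 * g2 τ + (-(72 * (k : ℂ) ^ 2)) * (E₄ τ * g τ))) =
      (g' : ℍ → ℂ) := by
    funext τ
    rw [hg']
    rfl
  rw [ef'] at pf'
  rw [eg'] at pg'
  have pX := pf'.add (ps_E2.mul pg')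
  have n1 : (PowerSeries.C (288 : ℂ)) = 288 := map_ofNat _ 288
  have n2 : (PowerSeries.C (-(72 * (k : ℂ) ^ 2))) = -(72 * (k : PowerSeries ℂ) ^ 2) := by
    have : (-(72 * (k : ℂ) ^ 2)) = -((72 * k ^ 2 : ℕ) : ℂ) := by push_cast; ring
    rw [this, map_neg, map_natCast]
    push_cast
    ring
  have n3 : (PowerSeries.C (-48 : ℂ)) = -48 := by
    rw [map_neg, map_ofNat]
  have n4 : (PowerSeries.C (8 : ℂ)) = 8 := map_ofNat _ 8
  have n5 : (PowerSeries.C (48 : ℂ)) = 48 := map_ofNat _ 48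
  rw [n1, n2, n3, n4, n5] at pX
  have hX : PS (fun τ => f' τ + E2 τ * g' τ) (144 * L) := by
    rw [key]
    convert pX using 1
    ring
  have hpow : (PowerSeries.X : PowerSeries ℂ) ^ k ∣ F + e2 * G := PowerSeries.X_pow_dvd_iff.2 h0
  have hcoef : ∀ n ≤ k, L.coeff n = 0 := by
    intro n hn
    obtain ⟨B, hB⟩ := hpow
    have hK : th (k : PowerSeries ℂ) = 0 := th_natCast k
    have e1 : th (F + e2 * G) = PowerSeries.X ^ k * ((k : PowerSeries ℂ) * B + th B) := by
      rw [hB, th_mul, OR.th_X_pow]; ring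
    have e2' : th (th (F + e2 * G)) = PowerSeries.X ^ k *
        ((k : PowerSeries ℂ) * ((k : PowerSeries ℂ) * B + th B) +
          th ((k : PowerSeries ℂ) * B + th B)) := by
      rw [e1, th_mul, OR.th_X_pow]; ring
    have e3 : L = PowerSeries.X ^ k * (2 * ((k : PowerSeries ℂ) * ((k : PowerSeries ℂ) * B + th B) +
          th ((k : PowerSeries ℂ) * B + th B)) - 2 * (k : PowerSeries ℂ) * e2 *
            ((k : PowerSeries ℂ) * B + th B) +
            (k : PowerSeries ℂ) * (6 * (k : PowerSeries ℂ) - 1) * th e2 * B) := by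
      rw [hL, e2', e1, hB]
      ring
    rw [e3, PowerSeries.coeff_X_pow_mul']
    split_ifs with h
    · have : n = k := le_antisymm hn h
      subst this
      have hc2 : PowerSeries.constantCoeff e2 = 1 := by
        rw [← PowerSeries.coeff_zero_eq_constantCoeff_apply, coeff_e2]
        simp
      rw [Nat.sub_self, PowerSeries.coeff_zero_eq_constantCoeff_apply]
      simp only [map_add, map_sub, map_mul, OR.cc_th, hc2, map_natCast, map_ofNat, map_one]
      ring
    · rfl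
  obtain ⟨r1, r2⟩ := hO _ f' g' _ (AS.qexp_iff.2 hX) (by
    intro n hn
    have h1 : n ≤ k := by omega
    have h2 : (144 : PowerSeries ℂ) = PowerSeries.C 144 := (C_ofNat 144).symm
    rw [h2, PowerSeries.coeff_C_mul, hcoef n h1, mul_zero])
  rw [r1, r2] at hX
  have h3 : PS (fun τ => (0 : ModularForm 𝒮ℒ ((6 * k : ℤ) + 4)) τ + E2 τ *
      (0 : ModularForm 𝒮ℒ ((6 * k : ℤ) + 4 - 2)) τ) 0 := by
    intro τ
    simp
  have h4 := hX.unique h3
  have h5 : (144 : PowerSeries ℂ) ≠ 0 := by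
    have h2 : (144 : PowerSeries ℂ) = PowerSeries.C 144 := (C_ofNat 144).symm
    rw [h2]
    intro h
    have := congrArg (PowerSeries.coeff 0) h
    simp at this
  exact (mul_eq_zero.1 h4).resolve_left h5

theorem qe_add {w : ℤ} (f g : ModularForm 𝒮ℒ w) : qExpansion 1 ((f + g : ModularForm 𝒮ℒ w) : ℍ → ℂ) =
    qExpansion 1 (f : ℍ → ℂ) + qExpansion 1 (g : ℍ → ℂ) :=
  (ps_form (f + g)).unique ((ps_form f).add (ps_form g))

theorem qe_smul {w : ℤ} (a : ℂ) (f : ModularForm 𝒮ℒ w) :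
    qExpansion 1 ((a • f : ModularForm 𝒮ℒ w) : ℍ → ℂ) =
    PowerSeries.C a * qExpansion 1 (f : ℍ → ℂ) :=
  (ps_form (a • f)).unique ((ps_form f).cmul a)

/-- the coefficient map -/
def cm (w : ℤ) (k : ℕ) : (ModularForm 𝒮ℒ w × ModularForm 𝒮ℒ (w - 2)) →ₗ[ℂ] (Fin k → ℂ) where
  toFun p := fun n => (qExpansion 1 (p.1 : ℍ → ℂ) + e2 * qExpansion 1 (p.2 : ℍ → ℂ)).coeff n
  map_add' p p' := by
    funext n
    show (qExpansion 1 ((p.1 + p'.1 : ModularForm 𝒮ℒ w) : ℍ → ℂ) +
      e2 * qExpansion 1 ((p.2 + p'.2 : ModularForm 𝒮ℒ (w - 2)) : ℍ → ℂ)).coeff n = _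
    rw [qe_add, qe_add]
    simp only [Pi.add_apply, map_add, mul_add]
    ring
  map_smul' a p := by
    funext n
    show (qExpansion 1 ((a • p.1 : ModularForm 𝒮ℒ w) : ℍ → ℂ) +
      e2 * qExpansion 1 ((a • p.2 : ModularForm 𝒮ℒ (w - 2)) : ℍ → ℂ)).coeff n = _
    rw [qe_smul, qe_smul]
    simp only [Pi.smul_apply, RingHom.id_apply, smul_eq_mul]
    rw [← PowerSeries.coeff_C_mul]
    congr 1
    ring

theorem dimZ (w : ℤ) (v : ℕ) (h : (v : ℤ) = w) : Module.finrank ℂ (ModularForm 𝒮ℒ w) +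
    Module.finrank ℂ (ModularForm 𝒮ℒ (w - 2)) = dimQM v := by
  subst h
  rfl

theorem exists_lead (hO : JobOrd) (k : ℕ) (hk : 1 ≤ k) :
    ∃ (f : ModularForm 𝒮ℒ (6 * k : ℤ)) (g : ModularForm 𝒮ℒ ((6 * k : ℤ) - 2)),
      (∀ n < k, (qExpansion 1 (f : ℍ → ℂ) + e2 * qExpansion 1 (g : ℍ → ℂ)).coeff n = 0) ∧
      (qExpansion 1 (f : ℍ → ℂ) + e2 * qExpansion 1 (g : ℍ → ℂ)).coeff k = 1 := by
  have hdim : Module.finrank ℂ (Fin k → ℂ) <
      Module.finrank ℂ (ModularForm 𝒮ℒ (6 * k : ℤ) × ModularForm 𝒮ℒ ((6 * k : ℤ) - 2)) := by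
    rw [Module.finrank_prod, dimZ (6 * k) (6 * k) (by push_cast; ring)]
    have := AS.dimQM_eq (w := 6 * k) ⟨3 * k, by ring⟩ (by omega)
    simp
    omega
  have hker := LinearMap.ker_ne_bot_of_finrank_lt (f := cm (6 * k) k) hdim
  obtain ⟨⟨f, g⟩, hmem, hne⟩ := Submodule.exists_mem_ne_zero_of_ne_bot hker
  have h0 : ∀ n < k, (qExpansion 1 (f : ℍ → ℂ) + e2 * qExpansion 1 (g : ℍ → ℂ)).coeff n = 0 := by
    intro n hn
    have h1 := LinearMap.mem_ker.1 hmem
    exact congrFun h1 ⟨n, hn⟩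
  have hc : (qExpansion 1 (f : ℍ → ℂ) + e2 * qExpansion 1 (g : ℍ → ℂ)).coeff k ≠ 0 := by
    intro hc
    have hX := (ps_form f).add (ps_E2.mul (ps_form g))
    obtain ⟨r1, r2⟩ := hO _ f g _ (AS.qexp_iff.2 hX) (by
      intro n hn
      have h1 : n ≤ k := by omega
      rcases h1.lt_or_eq with h | h
      · exact h0 n h
      · rw [h]; exact hc)
    apply hne
    rw [r1, r2]
    rfl
  set c := (qExpansion 1 (f : ℍ → ℂ) + e2 * qExpansion 1 (g : ℍ → ℂ)).coeff k with hcd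
  refine ⟨c⁻¹ • f, c⁻¹ • g, ?_, ?_⟩
  · intro n hn
    rw [qe_smul, qe_smul, show PowerSeries.C c⁻¹ * qExpansion 1 (f : ℍ → ℂ) +
      e2 * (PowerSeries.C c⁻¹ * qExpansion 1 (g : ℍ → ℂ)) = PowerSeries.C c⁻¹ *
      (qExpansion 1 (f : ℍ → ℂ) + e2 * qExpansion 1 (g : ℍ → ℂ)) by ring,
      PowerSeries.coeff_C_mul, h0 n hn, mul_zero]
  · rw [qe_smul, qe_smul, show PowerSeries.C c⁻¹ * qExpansion 1 (f : ℍ → ℂ) +
      e2 * (PowerSeries.C c⁻¹ * qExpansion 1 (g : ℍ → ℂ)) = PowerSeries.C c⁻¹ *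
      (qExpansion 1 (f : ℍ → ℂ) + e2 * qExpansion 1 (g : ℍ → ℂ)) by ring,
      PowerSeries.coeff_C_mul, ← hcd, inv_mul_cancel₀ hc]

theorem e2_real (n : ℕ) : e2.coeff n = (AS.a2 n : ℂ) := by
  rw [coeff_e2]
  unfold AS.a2
  split_ifs <;> push_cast <;> rfl

/-- the coefficients are real -/
theorem real_coeff (k : ℕ) (hk : 1 ≤ k) (A : PowerSeries ℂ) (h0 : ∀ n < k, A.coeff n = 0)
    (h1 : A.coeff k = 1)
    (hode : 2 * th (th A) - 2 * (k : PowerSeries ℂ) * e2 * th A +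
      (k : PowerSeries ℂ) * (6 * (k : PowerSeries ℂ) - 1) * th e2 * A = 0) (n : ℕ) :
    (A.coeff n).im = 0 := by
  induction n using Nat.strong_induction_on with | _ n ih =>
  rcases lt_trichotomy n k with h | h | h
  · rw [h0 n h]; simp
  · rw [h, h1]; simp
  · have e := congrArg (PowerSeries.coeff n) hode
    have e1 : 2 * th (th A) - 2 * (k : PowerSeries ℂ) * e2 * th A +
      (k : PowerSeries ℂ) * (6 * (k : PowerSeries ℂ) - 1) * th e2 * A =
      PowerSeries.C (2 : ℂ) * th (th A) - PowerSeries.C ((2 * k : ℕ) : ℂ) * (e2 * th A) +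
      PowerSeries.C ((k * (6 * k - 1) : ℕ) : ℂ) * (th e2 * A) := by
      have a1 : PowerSeries.C ((2 * k : ℕ) : ℂ) = 2 * (k : PowerSeries ℂ) := by
        rw [map_natCast]; push_cast; ring
      have a2 : PowerSeries.C ((k * (6 * k - 1) : ℕ) : ℂ) =
          (k : PowerSeries ℂ) * (6 * (k : PowerSeries ℂ) - 1) := by
        rw [map_natCast, Nat.cast_mul, Nat.cast_sub (by omega)]; push_cast; ring
      rw [a1, a2, C_ofNat]
      ring
    rw [e1, map_add, map_sub, PowerSeries.coeff_C_mul, PowerSeries.coeff_C_mul,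
      PowerSeries.coeff_C_mul, PowerSeries.coeff_mul, PowerSeries.coeff_mul, map_zero] at e
    have e2' := congrArg Complex.im e
    rw [Complex.add_im, Complex.sub_im] at e2'
    have m1 : (2 * (PowerSeries.coeff n) (th (th A))).im = 2 * ((n : ℝ) * (n * (A.coeff n).im)) := by
      rw [coeff_th, coeff_th]
      simp
    have m2 : ((((2 * k : ℕ) : ℂ)) * ∑ p ∈ Finset.HasAntidiagonal.antidiagonal n,
        (PowerSeries.coeff p.1) e2 * (PowerSeries.coeff p.2) (th A)).im =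
        (2 * k) * (n * (A.coeff n).im) := by
      rw [← Complex.ofReal_natCast, Complex.im_ofReal_mul, Complex.im_sum]
      congr 1
      · push_cast; rfl
      · rw [Finset.sum_eq_single (0, n)]
        · simp only
          rw [coeff_th, coeff_e2]
          simp
        · intro p hp hne
          rw [Finset.HasAntidiagonal.mem_antidiagonal] at hp
          have : p.2 ≠ n := by
            intro h
            apply hne
            ext <;> simp <;> omega
          rw [coeff_th, e2_real, Complex.im_ofReal_mul, ← Complex.ofReal_natCast,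
            Complex.im_ofReal_mul, ih p.2 (by omega)]
          ring
        · intro h
          exfalso
          apply h
          rw [Finset.HasAntidiagonal.mem_antidiagonal]
          simp
    have m3 : ((((k * (6 * k - 1) : ℕ) : ℂ)) * ∑ p ∈ Finset.HasAntidiagonal.antidiagonal n,
        (PowerSeries.coeff p.1) (th e2) * (PowerSeries.coeff p.2) A).im = 0 := by
      rw [← Complex.ofReal_natCast, Complex.im_ofReal_mul, Complex.im_sum]
      rw [Finset.sum_eq_zero, mul_zero]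
      intro p hp
      rw [Finset.HasAntidiagonal.mem_antidiagonal] at hp
      rw [coeff_th, e2_real, ← Complex.ofReal_natCast, ← Complex.ofReal_mul, Complex.im_ofReal_mul]
      rcases Nat.eq_zero_or_pos p.1 with h | h
      · rw [h]; simp
      · rw [ih p.2 (by omega), mul_zero]
    rw [m1, m2, m3] at e2'
    simp only [Complex.zero_im, add_zero] at e2'
    have hn : (n : ℝ) ≠ 0 := by
      have : 0 < n := by omega
      positivity
    have hnk : ((n : ℝ) - k) ≠ 0 := by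
      have : (k : ℝ) < n := by exact_mod_cast h
      linarith
    have e3 : ((n : ℝ) * (n - k)) * (A.coeff n).im = 0 := by linarith
    exact (mul_eq_zero.1 e3).resolve_left (mul_ne_zero hn hnk)

end KO

theorem jobKK (hO : JobOrd) : JobKK := by
  intro k hk
  obtain ⟨f, g, h0, h1⟩ := KO.exists_lead hO k hk
  have hode := KO.ode_ps hO k f g h0
  set A := qExpansion 1 (f : ℍ → ℂ) + e2 * qExpansion 1 (g : ℍ → ℂ) with hA
  have hX : KO.PS (fun τ => f τ + E2 τ * g τ) A :=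
    (KO.ps_form f).add (KO.ps_E2.mul (KO.ps_form g))
  have hre : ∀ n, A.coeff n = (((A.coeff n).re : ℝ) : ℂ) := by
    intro n
    apply Complex.ext
    · simp
    · rw [Complex.ofReal_im]
      exact KO.real_coeff k hk A h0 h1 hode n
  refine ⟨f, g, fun n => (A.coeff n).re, ?_, ?_, ?_, ?_⟩
  · have e : (fun n => (((A.coeff n).re : ℝ) : ℂ)) = fun n => A.coeff n := funext fun n => (hre n).symm
    rw [e]
    exact AS.qexp_iff.2 hX
  · intro n hn
    show (A.coeff n).re = 0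
    rw [h0 n hn]; simp
  · show (A.coeff k).re = 1
    rw [h1]; simp
  · set X : ℍ → ℂ := fun τ => f τ + E2 τ * g τ with hXd
    have p1 := hX.D.D
    have p2 := (KO.ps_E2.mul hX.D).lin (KO.ps_E2.D.mul hX) (k : ℂ) (-((k : ℂ) * (6 * k - 1) / 2))
    have e : th (th A) = PowerSeries.C (k : ℂ) * (e2 * th A) +
        PowerSeries.C (-((k : ℂ) * (6 * k - 1) / 2)) * (th e2 * A) := by
      have h2 : (2 : PowerSeries ℂ) ≠ 0 := by
        rw [← KO.C_ofNat 2]
        intro h
        have := congrArg (PowerSeries.coeff 0) h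
        simp at this
      apply mul_left_cancel₀ h2
      have h3 : 2 * PowerSeries.C (-((k : ℂ) * (6 * k - 1) / 2)) =
          -((k : PowerSeries ℂ) * (6 * (k : PowerSeries ℂ) - 1)) := by
        rw [← KO.C_ofNat 2, ← map_mul]
        have : (2 : ℂ) * (-((k : ℂ) * (6 * k - 1) / 2)) = -((k : ℂ) * (6 * (k : ℂ) - 1)) := by ring
        rw [this, map_neg, map_mul, map_sub, map_mul, map_natCast, map_one, KO.C_ofNat]
      have h4 : PowerSeries.C (k : ℂ) = (k : PowerSeries ℂ) := map_natCast _ k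
      rw [h4]
      linear_combination hode - (th e2 * A) * h3
    rw [← e] at p2
    intro τ
    have := congrFun (p1.ext p2) τ
    rw [this]
    ring

end

end Pool.Agent.R396.XQ
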