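import Pool.Agent.R396.XQ.Asm
import Pool.Agent.R396.WJ.Ana

set_option autoImplicit false

/-!
# The order at infinity of quasimodular forms of depth one
-/

namespace Pool.Agent.R396.XQ

open UpperHalfPlane hiding I
open Real Filter Topology Derivative EisensteinSeries ModularForm MatrixGroups
open scoped Manifold MatrixGroups ModularForm
open Pool.Agent.R396.QM Pool.Agent.R322.QD

noncomputable section

namespace OR

theorem th_X_pow (b : ℕ) : th ((PowerSeries.X : PowerSeries ℂ) ^ b) =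
    (b : PowerSeries ℂ) * PowerSeries.X ^ b := by
  ext n
  have e : (b : PowerSeries ℂ) = PowerSeries.C (b : ℂ) := by simp
  rw [coeff_th, e, PowerSeries.coeff_C_mul, PowerSeries.coeff_X_pow]
  split_ifs with h
  · subst h; simp
  · simp

theorem cc_th (A : PowerSeries ℂ) : PowerSeries.constantCoeff (th A) = 0 := by
  rw [← PowerSeries.coeff_zero_eq_constantCoeff_apply, coeff_th]
  simp

theorem ps_zero (A B : PowerSeries ℂ) (h : A ^ 2 + 12 * (A * th B - B * th A) = 0) : A = 0 := by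
  by_contra hA
  have hB : B ≠ 0 := by
    rintro rfl
    apply hA
    have : th (0 : PowerSeries ℂ) = 0 := by ext n; rw [coeff_th]; simp
    rw [this] at h
    have h2 : A ^ 2 = 0 := by linear_combination h
    exact pow_eq_zero_iff (two_ne_zero) |>.1 h2
  obtain ⟨b, A', hA1, hA2⟩ : ∃ (b : ℕ) (A' : PowerSeries ℂ),
      A = PowerSeries.X ^ b * A' ∧ PowerSeries.constantCoeff A' ≠ 0 :=
    ⟨A.order.toNat, A.divXPowOrder, (PowerSeries.X_pow_order_mul_divXPowOrder).symm, fun h =>
      hA (PowerSeries.constantCoeff_divXPowOrder_eq_zero_iff.1 h)⟩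
  obtain ⟨a, B', hB1, hB2⟩ : ∃ (b : ℕ) (A' : PowerSeries ℂ),
      B = PowerSeries.X ^ b * A' ∧ PowerSeries.constantCoeff A' ≠ 0 :=
    ⟨B.order.toNat, B.divXPowOrder, (PowerSeries.X_pow_order_mul_divXPowOrder).symm, fun h =>
      hB (PowerSeries.constantCoeff_divXPowOrder_eq_zero_iff.1 h)⟩
  set C : PowerSeries ℂ := B' * ((b : PowerSeries ℂ) * A' + th A') -
    A' * ((a : PowerSeries ℂ) * B' + th B') with hC
  have hCc : PowerSeries.constantCoeff C = ((b : ℂ) - a) *
      PowerSeries.constantCoeff A' * PowerSeries.constantCoeff B' := by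
    rw [hC]
    simp only [map_sub, map_mul, map_add, cc_th, map_natCast]
    ring
  have h1 : PowerSeries.X ^ (2 * b) * A' ^ 2 = PowerSeries.X ^ (a + b) * (12 * C) := by
    have e1 : th A = PowerSeries.X ^ b * ((b : PowerSeries ℂ) * A' + th A') := by
      rw [hA1, th_mul, th_X_pow]; ring
    have e2 : th B = PowerSeries.X ^ a * ((a : PowerSeries ℂ) * B' + th B') := by
      rw [hB1, th_mul, th_X_pow]; ring
    rw [e1, e2] at h
    rw [hC]
    have e3 : A ^ 2 = PowerSeries.X ^ (2 * b) * A' ^ 2 := by rw [hA1]; ring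
    rw [← e3]
    have e4 : A * (PowerSeries.X ^ a * ((a : PowerSeries ℂ) * B' + th B')) -
        B * (PowerSeries.X ^ b * ((b : PowerSeries ℂ) * A' + th A')) =
        - (PowerSeries.X ^ (a + b) * (B' * ((b : PowerSeries ℂ) * A' + th A') -
    A' * ((a : PowerSeries ℂ) * B' + th B'))) := by
      rw [pow_add]
      nth_rewrite 1 [hA1]
      nth_rewrite 1 [hB1]
      ring
    rw [e4] at h
    linear_combination h
  have hX : ∀ n : ℕ, (PowerSeries.X : PowerSeries ℂ) ^ n ≠ 0 := fun n =>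
    pow_ne_zero _ PowerSeries.X_ne_zero
  rcases lt_or_ge a b with hab | hab
  · obtain ⟨m, rfl⟩ := Nat.exists_eq_add_of_lt hab
    have h2 : PowerSeries.X ^ (m + 1) * A' ^ 2 = 12 * C := by
      apply mul_left_cancel₀ (hX (a + (a + m + 1)))
      rw [← h1]
      ring
    have h3 := congrArg PowerSeries.constantCoeff h2
    rw [map_mul, map_mul, hCc, map_pow, PowerSeries.constantCoeff_X, zero_pow (by omega), zero_mul] at h3
    have h4 : PowerSeries.constantCoeff (12 : PowerSeries ℂ) = (12 : ℂ) := map_ofNat _ 12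
    rw [h4] at h3
    have h5 : (((a + m + 1 : ℕ) : ℂ) - a) ≠ 0 := by
      push_cast
      have : (m : ℂ) + 1 ≠ 0 := by exact_mod_cast Nat.succ_ne_zero m
      intro h
      apply this
      linear_combination h
    have := mul_ne_zero (mul_ne_zero h5 hA2) hB2
    exact this (by linear_combination -h3 / 12)
  · obtain ⟨m, rfl⟩ := Nat.exists_eq_add_of_le hab
    have h2 : A' ^ 2 = PowerSeries.X ^ m * (12 * C) := by
      apply mul_left_cancel₀ (hX (2 * b))
      rw [h1]
      ring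
    have h3 := congrArg PowerSeries.constantCoeff h2
    rw [map_mul, map_mul, hCc, map_pow, map_pow, PowerSeries.constantCoeff_X] at h3
    rcases Nat.eq_zero_or_pos m with rfl | hm
    · simp at h3
      exact hA2 h3
    · rw [zero_pow hm.ne', zero_mul] at h3
      exact hA2 (pow_eq_zero_iff (two_ne_zero) |>.1 h3)

/-- the determinant of a quasimodular form is modular -/
theorem det_form {w : ℤ} (f : ModularForm 𝒮ℒ w) (g : ModularForm 𝒮ℒ (w - 2)) :
    ∃ W : ModularForm 𝒮ℒ (2 * w), ∀ τ, W τ = (f τ + E2 τ * g τ) ^ 2 +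
      12 * ((f τ + E2 τ * g τ) * D g τ - g τ * D (fun τ => f τ + E2 τ * g τ) τ) := by
  obtain ⟨f1, hf1⟩ := AS.serre_form f
  obtain ⟨g1, hg1⟩ := AS.serre_form g
  have hf : MDiff (f : ℍ → ℂ) := ModularFormClass.holo f
  have hg : MDiff (g : ℍ → ℂ) := ModularFormClass.holo g
  have hD : ∀ τ, D (fun τ => f τ + E2 τ * g τ) τ = D f τ + (D E2 τ * g τ + E2 τ * D g τ) := by
    intro τ
    have e : (fun τ => f τ + E2 τ * g τ) = (f : ℍ → ℂ) + E2 * (g : ℍ → ℂ) := rfl
    rw [e, normalizedDerivOfComplex_add _ _ hf (E2_mdifferentiable.mul hg),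
      normalizedDerivOfComplex_mul _ _ E2_mdifferentiable hg]
    rfl
  refine ⟨(f.mul f).mcast (by ring) + (E₄.mul (g.mul g)).mcast (by push_cast; ring) +
    (12 : ℂ) • ((f.mul g1).mcast (by ring) - (g.mul f1).mcast (by ring)), fun τ => ?_⟩
  rw [add_apply, add_apply, smul_apply, sub_apply, ModularForm.mcast_apply, ModularForm.mcast_apply,
    ModularForm.mcast_apply, ModularForm.mcast_apply, ModularForm.coe_mul, ModularForm.coe_mul,
    ModularForm.coe_mul, ModularForm.coe_mul, ModularForm.coe_mul]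
  simp only [Pi.mul_apply, smul_eq_mul]
  rw [hf1, hg1, hD, Pool.Agent.Y949.J.ram2]
  push_cast
  ring

theorem form_S {w : ℤ} (f : ModularForm 𝒮ℒ w) (τ : ℍ) :
    f (ModularGroup.S • τ) = (τ : ℂ) ^ w * f τ := by
  have h := SlashInvariantForm.slash_action_eqn' (Γ := 𝒮ℒ) f
    (show ((ModularGroup.S : SL(2, ℤ)) : GL (Fin 2) ℝ) ∈ 𝒮ℒ from ⟨ModularGroup.S, rfl⟩) τ
  have h10 : (((ModularGroup.S : SL(2, ℤ)) : GL (Fin 2) ℝ) 1 0 : ℝ) = 1 := by
    have : ((ModularGroup.S : SL(2, ℤ)) 1 0 : ℤ) = 1 := by decide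
    show (((ModularGroup.S : SL(2, ℤ)) 1 0 : ℤ) : ℝ) = 1
    rw [this]; norm_num
  have h11 : (((ModularGroup.S : SL(2, ℤ)) : GL (Fin 2) ℝ) 1 1 : ℝ) = 0 := by
    have : ((ModularGroup.S : SL(2, ℤ)) 1 1 : ℤ) = 0 := by decide
    show (((ModularGroup.S : SL(2, ℤ)) 1 1 : ℤ) : ℝ) = 0
    rw [this]; norm_num
  rw [h10, h11] at h
  have e : ((1 : ℝ) : ℂ) * (τ : ℂ) + ((0 : ℝ) : ℂ) = τ := by push_cast; ring
  rw [e] at h
  exact h

theorem zero_of_zero {w : ℤ} (f : ModularForm 𝒮ℒ w) (g : ModularForm 𝒮ℒ (w - 2))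
    (h : ∀ τ, f τ + E2 τ * g τ = 0) : f = 0 ∧ g = 0 := by
  have hg : g = 0 := by
    ext τ
    have h1 := h (ModularGroup.S • τ)
    rw [form_S, form_S, Pool.Agent.R396.WJ.E2_S] at h1
    have h0 : (τ : ℂ) ≠ 0 := ne_zero τ
    have h2 := h τ
    have e : (τ : ℂ) ^ w = (τ : ℂ) ^ (w - 2) * (τ : ℂ) ^ 2 := by
      rw [← zpow_natCast, ← zpow_add₀ h0]
      congr 1
      push_cast
      ring
    rw [e] at h1
    have h3 : (τ : ℂ) ^ (w - 2) * (6 * Complex.I / π * τ) * g τ = 0 := by
      linear_combination (τ : ℂ) ^ (w - 2) * (τ : ℂ) ^ 2 * h2 - h1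
    have hpi : (π : ℂ) ≠ 0 := by exact_mod_cast Real.pi_ne_zero
    have h4 : (τ : ℂ) ^ (w - 2) * (6 * Complex.I / π * τ) ≠ 0 := by
      refine mul_ne_zero (zpow_ne_zero _ h0) (mul_ne_zero (div_ne_zero ?_ hpi) h0)
      exact mul_ne_zero (by norm_num) Complex.I_ne_zero
    exact (mul_eq_zero.1 h3).resolve_left h4
  refine ⟨?_, hg⟩
  ext τ
  have := h τ
  rw [hg] at this
  simpa using this

end OR

theorem jobOrd : JobOrd := by
  intro w f g c hc h0
  have hF := AS.qexp_iff.1 hc
  set F : ℍ → ℂ := fun τ => f τ + E2 τ * g τ with hFd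
  have gF := AS.good_of_hasQ hF
  have gg : Good (g : ℍ → ℂ) := good_modular g
  obtain ⟨W, hW⟩ := OR.det_form f g
  set A := qExpansion 1 F with hA
  set B := qExpansion 1 (g : ℍ → ℂ) with hB
  have gW : Good (W : ℍ → ℂ) := good_modular W
  have hWq : qExpansion 1 W = A ^ 2 + 12 * (A * th B - B * th A) := by
    have e : (W : ℍ → ℂ) - F * F = (12 : ℂ) • (F * D g - (g : ℍ → ℂ) * D F) := by
      funext τ
      simp only [Pi.sub_apply, Pi.smul_apply, Pi.mul_apply, smul_eq_mul]
      rw [hW, hFd]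
      ring
    have h1 := congrArg (qExpansion 1) e
    rw [UpperHalfPlane.qExpansion_sub gW.an (gF.mul gF).an,
      UpperHalfPlane.qExpansion_smul ((gF.mul (good_D gg)).sub (gg.mul (good_D gF))).an,
      UpperHalfPlane.qExpansion_sub (gF.mul (good_D gg)).an (gg.mul (good_D gF)).an,
      UpperHalfPlane.qExpansion_mul gF.an gF.an, UpperHalfPlane.qExpansion_mul gF.an (good_D gg).an,
      UpperHalfPlane.qExpansion_mul gg.an (good_D gF).an, qExpansion_D gg, qExpansion_D gF,
      two_smul_eq] at h1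
    have h2 : (PowerSeries.C (12 : ℂ)) = (12 : PowerSeries ℂ) := map_ofNat _ 12
    rw [h2] at h1
    linear_combination h1
  have hA0 : A = 0 := by
    apply OR.ps_zero A B
    rw [← hWq]
    rcases lt_or_ge w 0 with hw | hw
    · have : W = 0 := rank_zero_iff_forall_zero.mp (levelOne_neg_weight_rank_zero (by omega)) W
      exact (ModularForm.qExpansion_eq_zero_iff one_pos one_mem_strictPeriods_SL W).2 this
    · obtain ⟨v, rfl⟩ := Int.eq_ofNat_of_zero_le hw
      have h3 : (PowerSeries.X : PowerSeries ℂ) ^ (v / 6 + 1) ∣ A := by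
        rw [PowerSeries.X_pow_dvd_iff]
        intro n hn
        rw [hA, AS.coeff_eq hF]
        exact h0 n (by omega)
      have h4 : (PowerSeries.X : PowerSeries ℂ) ^ (v / 6 + 1) ∣ th A := by
        rw [PowerSeries.X_pow_dvd_iff] at h3 ⊢
        intro n hn
        rw [coeff_th, h3 n hn, mul_zero]
      have h5 : (PowerSeries.X : PowerSeries ℂ) ^ (v / 6 + 1) ∣ qExpansion 1 W := by
        rw [hWq]
        refine dvd_add (dvd_pow h3 two_ne_zero) (Dvd.dvd.mul_left ?_ _)
        exact dvd_sub (Dvd.dvd.mul_right h3 _) (Dvd.dvd.mul_left h4 _)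
      have h6 : W.mcast (show 2 * (v : ℤ) = ((2 * v : ℕ) : ℤ) by push_cast; ring) = 0 := by
        apply sturm_bound_levelOne_nat
        have h7 : ((v / 6 + 1 : ℕ) : ℕ∞) ≤ (qExpansion 1 W).order := by
          apply PowerSeries.nat_le_order
          exact PowerSeries.X_pow_dvd_iff.1 h5
        have h8 : 2 * v / 12 = v / 6 := by omega
        rw [h8]
        refine lt_of_lt_of_le ?_ h7
        exact_mod_cast Nat.lt_succ_self _
      rw [ModularForm.mcast_eq_zero_iff] at h6
      exact (ModularForm.qExpansion_eq_zero_iff one_pos one_mem_strictPeriods_SL W).2 h6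
  have hF0 : ∀ τ, F τ = 0 := by
    intro τ
    have h4 := AS.hasQ_of_good gF τ
    rw [← hA, hA0] at h4
    simp only [map_zero, zero_mul] at h4
    exact h4.unique hasSum_zero
  exact OR.zero_of_zero f g hF0

end

end Pool.Agent.R396.XQ
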