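import Pool.Agent.R396.XQ.Stm

set_option autoImplicit false

/-!
# MP_d6a497_nt: the real analysis (three first-crossing arguments)
-/

namespace Pool.Agent.R396.XQ.RA

open Real Filter Topology Set

theorem deriv_nonneg_right {h : ℝ → ℝ} {d a : ℝ} (hd : HasDerivAt h d a) (h0 : h a = 0)
    (hp : ∀ t, a < t → 0 < h t) : 0 ≤ d := by
  have h1 : Tendsto (slope h a) (𝓝[>] a) (𝓝 d) :=
    (hasDerivAt_iff_tendsto_slope.1 hd).mono_left
      (nhdsWithin_mono a (fun t (ht : a < t) => ne_of_gt ht))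
  refine ge_of_tendsto h1 ?_
  filter_upwards [self_mem_nhdsWithin] with t ht
  have ht' : a < t := ht
  rw [slope_def_field, h0, sub_zero]
  exact div_nonneg (hp t ht').le (sub_pos.2 ht').le

theorem deriv_nonpos_left {h : ℝ → ℝ} {d a : ℝ} (ha : 0 < a) (hd : HasDerivAt h d a)
    (h0 : h a = 0) (hp : ∀ t, 0 < t → t < a → 0 < h t) : d ≤ 0 := by
  have h1 : Tendsto (slope h a) (𝓝[<] a) (𝓝 d) :=
    (hasDerivAt_iff_tendsto_slope.1 hd).mono_left
      (nhdsWithin_mono a (fun t (ht : t < a) => ne_of_lt ht))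
  refine le_of_tendsto h1 ?_
  filter_upwards [self_mem_nhdsWithin, nhdsWithin_le_nhds (lt_mem_nhds ha)] with t ht ht2
  have ht' : t < a := ht
  rw [slope_def_field, h0, sub_zero]
  exact div_nonpos_of_nonneg_of_nonpos (hp t ht2 ht').le (sub_neg.2 ht').le

theorem pos_of_cross {h h' : ℝ → ℝ} (hd : ∀ s, 0 < s → HasDerivAt h (h' s) s)
    (h0 : ∀ᶠ s in 𝓝[>] (0:ℝ), 0 < h s)
    (hz : ∀ s, 0 < s → h s = 0 → 0 < h' s) : ∀ s, 0 < s → 0 < h s := by
  by_contra hcon
  push Not at hcon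
  obtain ⟨s1, hs1, hle⟩ := hcon
  obtain ⟨δ, hδ, hδ'⟩ : ∃ δ : ℝ, 0 < δ ∧ ∀ s, 0 < s → s < δ → 0 < h s := by
    obtain ⟨δ, hδ, hδ'⟩ := (mem_nhdsGT_iff_exists_Ioo_subset).1 h0
    exact ⟨δ, hδ, fun s hs hs2 => hδ' ⟨hs, hs2⟩⟩
  set S : Set ℝ := {s | 0 < s ∧ h s ≤ 0} with hS
  have hne : S.Nonempty := ⟨s1, hs1, hle⟩
  have hbb : BddBelow S := ⟨0, fun s hs => hs.1.le⟩
  set a := sInf S with ha_def
  have ha : δ ≤ a := le_csInf hne (fun s hs => by
    by_contra hlt
    push Not at hlt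
    exact absurd (hδ' s hs.1 hlt) (not_lt.2 hs.2))
  have ha0 : 0 < a := lt_of_lt_of_le hδ ha
  have hpos : ∀ s, 0 < s → s < a → 0 < h s := by
    intro s hs hsa
    by_contra hlt
    push Not at hlt
    exact absurd (csInf_le hbb (show s ∈ S from ⟨hs, hlt⟩)) (not_le.2 hsa)
  have hcont : ContinuousAt h a := (hd a ha0).continuousAt
  have h1 : h a ≤ 0 := by
    by_contra hlt
    push Not at hlt
    have hev : ∀ᶠ s in 𝓝 a, 0 < h s := hcont.eventually (lt_mem_nhds hlt)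
    have hfr : ∃ᶠ s in 𝓝 a, s ∈ S := mem_closure_iff_frequently.1 (csInf_mem_closure hne hbb)
    obtain ⟨s, hs, hs2⟩ := (hfr.and_eventually hev).exists
    exact absurd hs2 (not_lt.2 hs.2)
  have h2 : 0 ≤ h a := by
    have ht : Tendsto h (𝓝[<] a) (𝓝 (h a)) := hcont.tendsto.mono_left nhdsWithin_le_nhds
    refine ge_of_tendsto ht ?_
    filter_upwards [self_mem_nhdsWithin, nhdsWithin_le_nhds (lt_mem_nhds ha0)] with t ht ht2
    exact (hpos t ht2 ht).le
  have h3 : h a = 0 := le_antisymm h1 h2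
  have h4 := deriv_nonpos_left ha0 (hd a ha0) h3 hpos
  have h5 := hz a ha0 h3
  linarith

/-- positivity of the solution and of its derivative -/
theorem pos_pair {x x1 x1' : ℝ → ℝ} (hx : ∀ t, 0 < t → HasDerivAt x (-(2 * π) * x1 t) t)
    (hx1 : ∀ t, 0 < t → HasDerivAt x1 (x1' t) t)
    (hz : ∀ t, 0 < t → 0 < x t → x1 t = 0 → x1' t < 0)
    (hev : ∀ᶠ t in atTop, 0 < x t ∧ 0 < x1 t) : ∀ t, 0 < t → 0 < x t ∧ 0 < x1 t := by
  by_contra hcon
  push Not at hcon
  obtain ⟨t1, ht1, hle⟩ := hcon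
  obtain ⟨T, hT⟩ := eventually_atTop.1 hev
  set S : Set ℝ := {t | 0 < t ∧ (x t ≤ 0 ∨ x1 t ≤ 0)} with hS
  have ht1S : t1 ∈ S := by
    refine ⟨ht1, ?_⟩
    rcases le_or_gt (x t1) 0 with h | h
    · exact Or.inl h
    · exact Or.inr (hle h)
  have hne : S.Nonempty := ⟨t1, ht1S⟩
  have hba : BddAbove S := by
    refine ⟨T, fun t ht => ?_⟩
    by_contra hlt
    push Not at hlt
    rcases ht.2 with h | h
    · exact absurd (hT t hlt.le).1 (not_lt.2 h)
    · exact absurd (hT t hlt.le).2 (not_lt.2 h)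
  set a := sSup S with ha_def
  have ha0 : 0 < a := lt_of_lt_of_le ht1 (le_csSup hba ht1S)
  have hpos : ∀ t, a < t → 0 < x t ∧ 0 < x1 t := by
    intro t hat
    have h0t : 0 < t := ha0.trans hat
    constructor
    · by_contra hlt
      push Not at hlt
      exact absurd (le_csSup hba (show t ∈ S from ⟨h0t, Or.inl hlt⟩)) (not_le.2 hat)
    · by_contra hlt
      push Not at hlt
      exact absurd (le_csSup hba (show t ∈ S from ⟨h0t, Or.inr hlt⟩)) (not_le.2 hat)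
  have hxa : 0 < x a := by
    have hanti : StrictAntiOn x (Icc a (a + 1)) := by
      refine strictAntiOn_of_deriv_neg (convex_Icc _ _) ?_ ?_
      · intro t ht
        exact (hx t (ha0.trans_le ht.1)).continuousAt.continuousWithinAt
      · intro t ht
        rw [interior_Icc] at ht
        rw [(hx t (ha0.trans ht.1)).deriv]
        have := (hpos t ht.1).2
        have hpi := Real.pi_pos
        nlinarith [mul_pos hpi this]
    have h1 := hanti (left_mem_Icc.2 (by linarith)) (right_mem_Icc.2 (by linarith))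
      (show a < a + 1 by linarith)
    have h2 := (hpos (a + 1) (by linarith)).1
    linarith
  have hc : ContinuousAt x a := (hx a ha0).continuousAt
  have hc1 : ContinuousAt x1 a := (hx1 a ha0).continuousAt
  have h1 : x1 a ≤ 0 := by
    by_contra hlt
    push Not at hlt
    have hev1 : ∀ᶠ s in 𝓝 a, 0 < x s := hc.eventually (lt_mem_nhds hxa)
    have hev2 : ∀ᶠ s in 𝓝 a, 0 < x1 s := hc1.eventually (lt_mem_nhds hlt)
    have hfr : ∃ᶠ s in 𝓝 a, s ∈ S := mem_closure_iff_frequently.1 (csSup_mem_closure hne hba)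
    obtain ⟨s, hs, hs2, hs3⟩ := (hfr.and_eventually (hev1.and hev2)).exists
    rcases hs.2 with h | h
    · exact absurd hs2 (not_lt.2 h)
    · exact absurd hs3 (not_lt.2 h)
  have h2 : 0 ≤ x1 a := by
    have ht : Tendsto x1 (𝓝[>] a) (𝓝 (x1 a)) := hc1.tendsto.mono_left nhdsWithin_le_nhds
    refine ge_of_tendsto ht ?_
    filter_upwards [self_mem_nhdsWithin] with t ht
    exact (hpos t ht).2.le
  have h3 : x1 a = 0 := le_antisymm h1 h2
  have h4 := deriv_nonneg_right (hx1 a ha0) h3 (fun t ht => (hpos t ht).2)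
  have h5 := hz a ha0 hxa h3
  linarith

theorem monotone_of_deriv {G G' : ℝ → ℝ} (hd : ∀ s, 0 < s → HasDerivAt G (G' s) s)
    (h0 : ∀ s, 0 < s → 0 ≤ G' s) : MonotoneOn G (Ioi 0) := by
  refine monotoneOn_of_deriv_nonneg (convex_Ioi _) ?_ ?_ ?_
  · intro t ht
    exact (hd t ht).continuousAt.continuousWithinAt
  · intro t ht
    rw [interior_Ioi] at ht
    exact (hd t ht).differentiableAt.differentiableWithinAt
  · intro t ht
    rw [interior_Ioi] at ht
    rw [(hd t ht).deriv]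
    exact h0 t ht

theorem antitone_of_inv {F G : ℝ → ℝ} (hG : MonotoneOn G (Ioi 0))
    (hFG : ∀ s, 0 < s → F (1 / s) = G s) : AntitoneOn F (Ioi 0) := by
  intro a ha b hb hab
  have ha' : (0:ℝ) < a := ha
  have hb' : (0:ℝ) < b := hb
  have h1 : F a = G (1 / a) := by
    rw [← hFG (1 / a) (by positivity), one_div_one_div]
  have h2 : F b = G (1 / b) := by
    rw [← hFG (1 / b) (by positivity), one_div_one_div]
  rw [h1, h2]
  exact hG (show (0:ℝ) < 1 / b by positivity) (show (0:ℝ) < 1 / a by positivity)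
    (one_div_le_one_div_of_le ha' hab)

section
variable {P Q R : ℝ → ℝ} {k : ℕ} {x x1 : ℝ → ℝ}

/-- The data. -/
structure Dat (P Q R : ℝ → ℝ) (k : ℕ) (x x1 : ℝ → ℝ) : Prop where
  ax : Ax P Q R
  hk : 1 ≤ k
  dx : ∀ t, 0 < t → HasDerivAt x (-(2 * π) * x1 t) t
  dx1 : ∀ t, 0 < t → HasDerivAt x1 (-(2 * π) * (k * P t * x1 t +
    (k * (6 * k - 1) / 2) * ((Q t - P t ^ 2) / 12) * x t)) t
  lim : Tendsto (fun t => x1 t / x t) atTop (𝓝 (k : ℝ))
  pos : ∀ᶠ t in atTop, 0 < x t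

theorem Dat.hk' (h : Dat P Q R k x x1) : (1:ℝ) ≤ k := by exact_mod_cast h.hk

theorem Dat.posx (h : Dat P Q R k x x1) : ∀ t, 0 < t → 0 < x t ∧ 0 < x1 t := by
  have hk1 := h.hk'
  refine pos_pair h.dx h.dx1 ?_ ?_
  · intro t ht hxt hx1
    rw [hx1]
    have hN := h.ax.posN t ht
    have hpi := Real.pi_pos
    have h1 : 0 < (k * (6 * k - 1) / 2 : ℝ) * ((Q t - P t ^ 2) / 12) * x t := by
      have : (0:ℝ) < 6 * k - 1 := by linarith
      have h2 : (0:ℝ) < (Q t - P t ^ 2) / 12 := by linarith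
      have h3 : (0:ℝ) < k := by linarith
      positivity
    have h2 : 0 < 2 * π * ((k * (6 * k - 1) / 2 : ℝ) * ((Q t - P t ^ 2) / 12) * x t) :=
      mul_pos (by positivity) h1
    linarith
  · have h1 : ∀ᶠ t in atTop, 0 < x1 t / x t :=
      h.lim.eventually (lt_mem_nhds (by linarith : (0:ℝ) < k))
    filter_upwards [h1, h.pos] with t ht1 ht2
    exact ⟨ht2, (div_pos_iff_of_pos_right ht2).1 ht1⟩

/-- the function `r` -/
noncomputable def rr (k : ℕ) (x x1 : ℝ → ℝ) (s : ℝ) : ℝ :=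
  x1 (1 / s) / x (1 / s) / s ^ 2 - (6 * k - 1) / (2 * π * s)

theorem hasDerivAt_one_div {s : ℝ} (hs : 0 < s) : HasDerivAt (fun s : ℝ => 1 / s) (-(1 / s ^ 2)) s := by
  have := hasDerivAt_inv hs.ne'
  simpa [one_div] using this

theorem Dat.drr (h : Dat P Q R k x x1) (s : ℝ) (hs : 0 < s) :
    HasDerivAt (rr k x x1) (-(2 * π) * (rr k x x1 s ^ 2 + k * P s * rr k x x1 s -
      (k * (6 * k - 1) / 2) * ((Q s - P s ^ 2) / 12))) s := by
  have hs' : (0:ℝ) < 1 / s := by positivity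
  have hxp := h.posx (1 / s) hs'
  have hinv := hasDerivAt_one_div hs
  have e1 : HasDerivAt (fun s => x (1 / s)) (-(2 * π) * x1 (1 / s) * (-(1 / s ^ 2))) s :=
    HasDerivAt.comp s (h.dx (1 / s) hs') hinv
  have e2 := HasDerivAt.comp s (h.dx1 (1 / s) hs') hinv
  have e3 : HasDerivAt (fun s : ℝ => s ^ 2) (2 * s) s := by
    simpa using hasDerivAt_pow 2 s
  have e4 : HasDerivAt (fun s : ℝ => (6 * (k:ℝ) - 1) / (2 * π * s))
      (-((6 * (k:ℝ) - 1) / (2 * π * s ^ 2))) s := by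
    have := (hinv.const_mul ((6 * (k:ℝ) - 1) / (2 * π)))
    refine (this.congr_deriv ?_).congr_of_eventuallyEq ?_
    · field_simp
    · filter_upwards [lt_mem_nhds hs] with u hu
      field_simp
  have e5 := ((e2.div e1 hxp.1.ne').div e3 (by positivity)).sub e4
  refine e5.congr_deriv ?_
  have hP := h.ax.sP s hs
  have hQ := h.ax.sQ s hs
  simp only [Function.comp_apply, Pi.div_apply, rr] at *
  rw [hP, hQ]
  have hx0 := hxp.1.ne'
  have hpi := Real.pi_ne_zero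
  have hs0 := hs.ne'
  generalize x (1 / s) = X at *
  generalize x1 (1 / s) = X1 at *
  generalize P s = p
  generalize Q s = q
  field_simp
  ring

theorem Dat.limr (h : Dat P Q R k x x1) :
    Tendsto (fun s => s ^ 2 * rr k x x1 s) (𝓝[>] (0:ℝ)) (𝓝 (k : ℝ)) := by
  have h1 : Tendsto (fun s : ℝ => 1 / s) (𝓝[>] (0:ℝ)) atTop := by
    simpa [one_div] using tendsto_inv_nhdsGT_zero (𝕜 := ℝ)
  have h2 := h.lim.comp h1
  have h3 : Tendsto (fun s : ℝ => (6 * (k:ℝ) - 1) / (2 * π) * s) (𝓝[>] (0:ℝ)) (𝓝 0) := by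
    have : Tendsto (fun s : ℝ => (6 * (k:ℝ) - 1) / (2 * π) * s) (𝓝 (0:ℝ))
      (𝓝 ((6 * (k:ℝ) - 1) / (2 * π) * 0)) := tendsto_id.const_mul _
    rw [mul_zero] at this
    exact this.mono_left nhdsWithin_le_nhds
  have h4 := h2.sub h3
  rw [sub_zero] at h4
  refine h4.congr' ?_
  filter_upwards [self_mem_nhdsWithin] with s hs
  have hs' : (0:ℝ) < s := hs
  have hpi := Real.pi_ne_zero
  simp only [Function.comp_apply, rr]
  field_simp

theorem Dat.rpos (h : Dat P Q R k x x1) : ∀ s, 0 < s → 0 < rr k x x1 s := by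
  have hk1 := h.hk'
  refine pos_of_cross h.drr ?_ ?_
  · have h1 : ∀ᶠ s in 𝓝[>] (0:ℝ), 0 < s ^ 2 * rr k x x1 s :=
      h.limr.eventually (lt_mem_nhds (by linarith : (0:ℝ) < k))
    filter_upwards [h1, self_mem_nhdsWithin] with s hs hs2
    have hs' : (0:ℝ) < s := hs2
    exact (mul_pos_iff_of_pos_left (by positivity)).1 hs
  · intro s hs h0
    rw [h0]
    have hN := h.ax.posN s hs
    have hpi := Real.pi_pos
    have h1 : 0 < (k * (6 * k - 1) / 2 : ℝ) * ((Q s - P s ^ 2) / 12) := by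
      have : (0:ℝ) < 6 * k - 1 := by linarith
      have h2 : (0:ℝ) < (Q s - P s ^ 2) / 12 := by linarith
      have h3 : (0:ℝ) < k := by linarith
      positivity
    have h2 : 0 < 2 * π * ((k * (6 * k - 1) / 2 : ℝ) * ((Q s - P s ^ 2) / 12)) :=
      mul_pos (by positivity) h1
    linarith

/-- the function `Y` -/
noncomputable def yy (k : ℕ) (x : ℝ → ℝ) (s : ℝ) : ℝ := (1 / s) ^ (6 * k - 1) * x (1 / s)

theorem Dat.dyy (h : Dat P Q R k x x1) (s : ℝ) (hs : 0 < s) :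
    HasDerivAt (yy k x) (2 * π * (yy k x s * rr k x x1 s)) s := by
  have hs' : (0:ℝ) < 1 / s := by positivity
  have hxp := h.posx (1 / s) hs'
  have hinv := hasDerivAt_one_div hs
  have e1 : HasDerivAt (fun s => x (1 / s)) (-(2 * π) * x1 (1 / s) * (-(1 / s ^ 2))) s :=
    HasDerivAt.comp s (h.dx (1 / s) hs') hinv
  obtain ⟨n, hn⟩ : ∃ n, 6 * k - 1 = n + 1 := ⟨6 * k - 2, by have := h.hk; omega⟩
  have hn' : (6 * (k:ℝ) - 1) = n + 1 := by
    have h2 : 6 * k = n + 2 := by have := h.hk; omega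
    have h3 : (6 * (k:ℝ)) = n + 2 := by exact_mod_cast h2
    linarith
  have e2 : HasDerivAt (fun s : ℝ => (1 / s) ^ (6 * k - 1))
      (((n:ℝ) + 1) * (1 / s) ^ n * (-(1 / s ^ 2))) s := by
    rw [hn]
    refine (hinv.fun_pow (n + 1)).congr_deriv ?_
    simp
  refine (e2.mul e1).congr_deriv ?_
  simp only [yy, rr, hn, hn']
  have hx0 := hxp.1.ne'
  have hpi := Real.pi_ne_zero
  have hs0 := hs.ne'
  generalize x (1 / s) = X at *
  generalize x1 (1 / s) = X1 at *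
  rw [pow_succ (1 / s) n]
  generalize (1 / s) ^ n = Z
  field_simp
  ring

theorem Dat.ypos (h : Dat P Q R k x x1) (s : ℝ) (hs : 0 < s) : 0 < yy k x s := by
  have hs' : (0:ℝ) < 1 / s := by positivity
  exact mul_pos (by positivity) (h.posx (1 / s) hs').1

theorem Dat.partA (h : Dat P Q R k x x1) :
    AntitoneOn (fun t => t ^ (6 * k - 1) * x t) (Set.Ioi 0) := by
  refine antitone_of_inv (G := yy k x) (monotone_of_deriv h.dyy ?_) (fun s _ => rfl)
  intro s hs
  have h1 := h.ypos s hs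
  have h2 := h.rpos s hs
  have hpi := Real.pi_pos
  positivity

/-- the function `h = r - K / (3 Q)` -/
noncomputable def hB (P Q R : ℝ → ℝ) (k : ℕ) (x x1 : ℝ → ℝ) (s : ℝ) : ℝ :=
  rr k x x1 s - (P s * Q s - R s) / (3 * Q s)

theorem Dat.dhB (h : Dat P Q R k x x1) (s : ℝ) (hs : 0 < s) :
    HasDerivAt (hB P Q R k x x1) (-(2 * π) * ((rr k x x1 s ^ 2 + k * P s * rr k x x1 s -
      (k * (6 * k - 1) / 2) * ((Q s - P s ^ 2) / 12)) -
      ((((P s ^ 2 - Q s) / 12) * Q s + P s * ((P s * Q s - R s) / 3) -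
        (P s * R s - Q s ^ 2) / 2) / (3 * Q s) -
        ((P s * Q s - R s) / (3 * Q s)) ^ 2))) s := by
  have hQ := h.ax.posQ s hs
  have e1 := h.ax.dP s hs
  have e2 := h.ax.dQ s hs
  have e3 := h.ax.dR s hs
  have e4 := ((e1.mul e2).sub e3).div (e2.const_mul 3) (by positivity)
  refine ((h.drr s hs).sub e4).congr_deriv ?_
  simp only [Pi.mul_apply, Pi.sub_apply]
  have hQ0 := hQ.ne'
  generalize rr k x x1 s = r
  generalize P s = p at *
  generalize Q s = q at *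
  generalize R s = t at *
  field_simp
  ring

theorem Dat.limB (h : Dat P Q R k x x1) :
    Tendsto (fun s => s ^ 2 * hB P Q R k x x1 s) (𝓝[>] (0:ℝ)) (𝓝 (k : ℝ)) := by
  have h1 : Tendsto (fun s : ℝ => 1 / s) (𝓝[>] (0:ℝ)) atTop := by
    simpa [one_div] using tendsto_inv_nhdsGT_zero (𝕜 := ℝ)
  have hP := h.ax.lP.comp h1
  have hQ := h.ax.lQ.comp h1
  have hR := h.ax.lR.comp h1
  have h2 : Tendsto (fun s : ℝ => (((P ∘ fun s => 1 / s) s) * ((Q ∘ fun s => 1 / s) s) -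
      ((R ∘ fun s => 1 / s) s)) / (3 * ((Q ∘ fun s => 1 / s) s))) (𝓝[>] (0:ℝ))
      (𝓝 ((1 * 1 - 1) / (3 * 1))) := ((hP.mul hQ).sub hR).div (hQ.const_mul 3) (by norm_num)
  have h3 : Tendsto (fun s : ℝ => 2 / π * s) (𝓝[>] (0:ℝ)) (𝓝 0) := by
    have : Tendsto (fun s : ℝ => 2 / π * s) (𝓝 (0:ℝ)) (𝓝 (2 / π * 0)) := tendsto_id.const_mul _
    rw [mul_zero] at this
    exact this.mono_left nhdsWithin_le_nhds
  have h4 := h.limr.sub (h3.sub h2)
  have e : (k:ℝ) - (0 - (1 * 1 - 1) / (3 * 1)) = k := by norm_num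
  rw [e] at h4
  refine h4.congr' ?_
  filter_upwards [self_mem_nhdsWithin] with s hs
  have hs' : (0:ℝ) < s := hs
  have hi : (0:ℝ) < 1 / s := by positivity
  have hpi := Real.pi_ne_zero
  have hP2 := h.ax.sP (1 / s) hi
  have hQ2 := h.ax.sQ (1 / s) hi
  have hR2 := h.ax.sR (1 / s) hi
  rw [one_div_one_div] at hP2 hQ2 hR2
  have hQp := (h.ax.posQ (1 / s) hi).ne'
  simp only [Function.comp_apply, hB]
  rw [hP2, hQ2, hR2]
  generalize rr k x x1 s = r
  generalize P (1 / s) = p at *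
  generalize Q (1 / s) = q at *
  generalize R (1 / s) = t at *
  field_simp
  ring

theorem keyB (p q t K : ℝ) (hK : 2 ≤ K) (hq : 0 < q) (hN : p ^ 2 < q)
    (I1 : 0 < 19 * q ^ 3 - 30 * p ^ 2 * q ^ 2 + 15 * p * q * t - 4 * t ^ 2) :
    ((p * q - t) / (3 * q)) ^ 2 + K * p * ((p * q - t) / (3 * q)) -
      (K * (6 * K - 1) / 2) * ((q - p ^ 2) / 12) -
      ((((p ^ 2 - q) / 12) * q + p * ((p * q - t) / 3) -
        (p * t - q ^ 2) / 2) / (3 * q) - ((p * q - t) / (3 * q)) ^ 2) < 0 := by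
  have hid : ((p * q - t) / (3 * q)) ^ 2 + K * p * ((p * q - t) / (3 * q)) -
      (K * (6 * K - 1) / 2) * ((q - p ^ 2) / 12) -
      ((((p ^ 2 - q) / 12) * q + p * ((p * q - t) / 3) -
        (p * t - q ^ 2) / 2) / (3 * q) - ((p * q - t) / (3 * q)) ^ 2) =
      -(8 * (19 * q ^ 3 - 30 * p ^ 2 * q ^ 2 + 15 * p * q * t - 4 * t ^ 2) +
        (6 * K - 12) * ((6 * K + 11) * (q ^ 2 * (q - p ^ 2)) - 8 * (p * q * (p * q - t)))) /
        (144 * q ^ 2) := by
    field_simp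
    ring
  rw [hid]
  have hA : 0 < q ^ 2 * (q - p ^ 2) := by
    have : 0 < q - p ^ 2 := by linarith
    positivity
  have h1 : 0 < 23 * (q ^ 2 * (q - p ^ 2)) - 8 * (p * q * (p * q - t)) := by
    have : 23 * (q ^ 2 * (q - p ^ 2)) - 8 * (p * q * (p * q - t)) =
      8 / 7 * (19 * q ^ 3 - 30 * p ^ 2 * q ^ 2 + 15 * p * q * t - 4 * t ^ 2) +
      32 / 7 * (p * q - t) ^ 2 + 9 / 7 * (q ^ 2 * (q - p ^ 2)) := by ring
    rw [this]
    have h2 := sq_nonneg (p * q - t)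
    linarith
  have h2 : 0 ≤ (6 * K - 12) *
      ((6 * K + 11) * (q ^ 2 * (q - p ^ 2)) - 8 * (p * q * (p * q - t))) := by
    apply mul_nonneg (by linarith)
    have : 23 * (q ^ 2 * (q - p ^ 2)) ≤ (6 * K + 11) * (q ^ 2 * (q - p ^ 2)) :=
      mul_le_mul_of_nonneg_right (by linarith) hA.le
    linarith
  apply div_neg_of_neg_of_pos
  · linarith
  · positivity

theorem Dat.posB (h : Dat P Q R k x x1) (hk2 : 2 ≤ k) : ∀ s, 0 < s → 0 < hB P Q R k x x1 s := by
  have hk1 := h.hk'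
  refine pos_of_cross h.dhB ?_ ?_
  · have h1 : ∀ᶠ s in 𝓝[>] (0:ℝ), 0 < s ^ 2 * hB P Q R k x x1 s :=
      h.limB.eventually (lt_mem_nhds (by linarith : (0:ℝ) < k))
    filter_upwards [h1, self_mem_nhdsWithin] with s hs hs2
    have hs' : (0:ℝ) < s := hs2
    exact (mul_pos_iff_of_pos_left (by positivity)).1 hs
  · intro s hs h0
    have hr : rr k x x1 s = (P s * Q s - R s) / (3 * Q s) := by
      have : hB P Q R k x x1 s = rr k x x1 s - (P s * Q s - R s) / (3 * Q s) := rfl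
      linarith
    rw [hr]
    have h1 := keyB (P s) (Q s) (R s) k (by exact_mod_cast hk2) (h.ax.posQ s hs)
      (h.ax.posN s hs) (h.ax.I1 s hs)
    have hpi := Real.pi_pos
    have h2 : (0:ℝ) < 2 * π := by positivity
    have h3 := mul_neg_of_pos_of_neg h2 h1
    linarith

theorem Dat.partB (h : Dat P Q R k x x1) (hk2 : 2 ≤ k) :
    AntitoneOn (fun t => t ^ (6 * k + 3) * (Q t * x t)) (Set.Ioi 0) := by
  refine antitone_of_inv (G := fun s => yy k x s * Q s) (monotone_of_deriv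
    (G' := fun s => 2 * π * (yy k x s * Q s * hB P Q R k x x1 s)) ?_ ?_) ?_
  · intro s hs
    refine ((h.dyy s hs).mul (h.ax.dQ s hs)).congr_deriv ?_
    have hQ := (h.ax.posQ s hs).ne'
    simp only [hB]
    field_simp
    ring
  · intro s hs
    have h1 := h.ypos s hs
    have h2 := h.posB hk2 s hs
    have h3 := h.ax.posQ s hs
    have hpi := Real.pi_pos
    positivity
  · intro s hs
    obtain ⟨n, hn⟩ : ∃ n, 6 * k - 1 = n := ⟨_, rfl⟩
    have h2 : 6 * k + 3 = n + 4 := by omega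
    simp only [yy]
    rw [h.ax.sQ s hs, hn, h2, pow_add]
    field_simp

/-- the function `h = (w - 1) N - P r` -/
noncomputable def hC (P Q : ℝ → ℝ) (k : ℕ) (x x1 : ℝ → ℝ) (s : ℝ) : ℝ :=
  (6 * k - 1) * ((Q s - P s ^ 2) / 12) - P s * rr k x x1 s

theorem Dat.dhC (h : Dat P Q R k x x1) (s : ℝ) (hs : 0 < s) :
    HasDerivAt (hC P Q k x x1) (-(2 * π) * ((6 * k - 1) * (((P s * Q s - R s) / 3 -
      2 * P s * ((P s ^ 2 - Q s) / 12)) / 12) - ((P s ^ 2 - Q s) / 12) * rr k x x1 s -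
      P s * (rr k x x1 s ^ 2 + k * P s * rr k x x1 s -
      (k * (6 * k - 1) / 2) * ((Q s - P s ^ 2) / 12)))) s := by
  have e1 := h.ax.dP s hs
  have e2 := h.ax.dQ s hs
  have e4 := (((e2.sub (e1.pow 2)).div_const 12).const_mul (6 * (k:ℝ) - 1)).sub
    (e1.mul (h.drr s hs))
  refine e4.congr_deriv ?_
  simp only [Nat.cast_ofNat]
  ring

theorem keyC (p q t r K : ℝ) (hK : 2 ≤ K) (hN : p ^ 2 < q) (hr : 0 < r)
    (I2 : 0 < 5 * q ^ 2 - 7 * p ^ 2 * q + 2 * p * t)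
    (h0 : (6 * K - 1) * ((q - p ^ 2) / 12) - p * r = 0) :
    (6 * K - 1) * (((p * q - t) / 3 -
      2 * p * ((p ^ 2 - q) / 12)) / 12) - ((p ^ 2 - q) / 12) * r -
      p * (r ^ 2 + K * p * r -
      (K * (6 * K - 1) / 2) * ((q - p ^ 2) / 12)) < 0 := by
  have hN' : 0 < (q - p ^ 2) / 12 := by linarith
  have hpr : p * r = (6 * K - 1) * ((q - p ^ 2) / 12) := by linarith
  have hpr0 : 0 < p * r := by
    rw [hpr]
    exact mul_pos (by linarith) hN'
  have hp : 0 < p := (mul_pos_iff_of_pos_right hr).1 hpr0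
  set N := (q - p ^ 2) / 12 with hNdef
  -- multiply by `p`
  have key : p * ((6 * K - 1) * (((p * q - t) / 3 -
      2 * p * ((p ^ 2 - q) / 12)) / 12) - ((p ^ 2 - q) / 12) * r -
      p * (r ^ 2 + K * p * r - (K * (6 * K - 1) / 2) * N)) =
      -((6 * K - 1) * ((6 * K - 12) * (N ^ 2 + N * p ^ 2 / 12) +
        (5 * q ^ 2 - 7 * p ^ 2 * q + 2 * p * t) / 72)) := by
    have e1 : p * ((6 * K - 1) * (((p * q - t) / 3 -
      2 * p * ((p ^ 2 - q) / 12)) / 12) - ((p ^ 2 - q) / 12) * r -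
      p * (r ^ 2 + K * p * r - (K * (6 * K - 1) / 2) * N)) =
      (6 * K - 1) * p * (((p * q - t) / 3 -
      2 * p * ((p ^ 2 - q) / 12)) / 12) - ((p ^ 2 - q) / 12) * (p * r) -
      ((p * r) ^ 2 + K * p ^ 2 * (p * r) - p ^ 2 * (K * (6 * K - 1) / 2) * N) := by ring
    rw [e1, hpr, hNdef]
    ring
  have h1 : 0 ≤ (6 * K - 12) * (N ^ 2 + N * p ^ 2 / 12) := by
    apply mul_nonneg (by linarith)
    positivity
  have h2 : p * ((6 * K - 1) * (((p * q - t) / 3 -
      2 * p * ((p ^ 2 - q) / 12)) / 12) - ((p ^ 2 - q) / 12) * r -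
      p * (r ^ 2 + K * p * r - (K * (6 * K - 1) / 2) * N)) < 0 := by
    rw [key, neg_lt_zero]
    exact mul_pos (by linarith) (by linarith)
  exact (pos_iff_neg_of_mul_neg h2).1 hp

theorem Dat.posC (h : Dat P Q R k x x1) (hk2 : 2 ≤ k) : ∀ s, 0 < s → 0 < hC P Q k x x1 s := by
  have hk1 := h.hk'
  refine pos_of_cross h.dhC ?_ ?_
  · have h1 : Tendsto (fun s : ℝ => 1 / s) (𝓝[>] (0:ℝ)) atTop := by
      simpa [one_div] using tendsto_inv_nhdsGT_zero (𝕜 := ℝ)
    have hP := h.ax.lP.comp h1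
    have h2 : ∀ᶠ s in 𝓝[>] (0:ℝ), (1/2 : ℝ) < P (1 / s) :=
      hP.eventually (lt_mem_nhds (by norm_num : (1/2:ℝ) < 1))
    have h3 : ∀ᶠ s in 𝓝[>] (0:ℝ), s < π / 12 := by
      have : ∀ᶠ s in 𝓝 (0:ℝ), s < π / 12 := gt_mem_nhds (by positivity)
      exact this.filter_mono nhdsWithin_le_nhds
    filter_upwards [h2, h3, self_mem_nhdsWithin] with s hs2 hs3 hs4
    have hs : (0:ℝ) < s := hs4
    have hi : (0:ℝ) < 1 / s := by positivity
    have hP2 := h.ax.sP (1 / s) hi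
    rw [one_div_one_div] at hP2
    have hPneg : P s < 0 := by
      rw [hP2]
      have hpi := Real.pi_pos
      have e : -((1 / s) ^ 2 * P (1 / s)) + 6 * (1 / s) / π =
          (1 / s) ^ 2 * (6 * s / π - P (1 / s)) := by
        field_simp
        ring
      rw [e]
      apply mul_neg_of_pos_of_neg (by positivity)
      have : 6 * s / π < 1 / 2 := by
        rw [div_lt_iff₀ hpi]
        linarith
      linarith
    have hr := h.rpos s hs
    have hN := h.ax.posN s hs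
    have h5 : 0 < (6 * (k:ℝ) - 1) * ((Q s - P s ^ 2) / 12) :=
      mul_pos (by linarith) (by linarith)
    have h6 : P s * rr k x x1 s < 0 := mul_neg_of_neg_of_pos hPneg hr
    simp only [hC]
    linarith
  · intro s hs h0
    have h1 := keyC (P s) (Q s) (R s) (rr k x x1 s) k (by exact_mod_cast hk2)
      (h.ax.posN s hs) (h.rpos s hs) (h.ax.I2 s hs) h0
    have hpi := Real.pi_pos
    have h2 : (0:ℝ) < 2 * π := by positivity
    have h3 := mul_neg_of_pos_of_neg h2 h1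
    linarith

theorem Dat.partC (h : Dat P Q R k x x1) (hk2 : 2 ≤ k) :
    AntitoneOn (fun t => t ^ (6 * k + 1) * (x1 t - (6 * k - 1) / 12 * P t * x t))
      (Set.Ioi 0) := by
  have hk1 := h.hk'
  refine antitone_of_inv
    (G := fun s => yy k x s * (rr k x x1 s + (6 * k - 1) / 12 * P s)) (monotone_of_deriv
    (G' := fun s => 2 * π * ((6 * k + 1) / 12 * (yy k x s * hC P Q k x x1 s))) ?_ ?_) ?_
  · intro s hs
    refine ((h.dyy s hs).mul ((h.drr s hs).add
      ((h.ax.dP s hs).const_mul ((6 * (k:ℝ) - 1) / 12)))).congr_deriv ?_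
    simp only [hC, Pi.add_apply]
    ring
  · intro s hs
    have h1 := h.ypos s hs
    have h2 := h.posC hk2 s hs
    have hpi := Real.pi_pos
    positivity
  · intro s hs
    have hs' : (0:ℝ) < 1 / s := by positivity
    have hxp := (h.posx (1 / s) hs').1.ne'
    obtain ⟨n, hn⟩ : ∃ n, 6 * k - 1 = n := ⟨_, rfl⟩
    have h2 : 6 * k + 1 = n + 2 := by omega
    have hpi := Real.pi_ne_zero
    simp only [yy, rr]
    rw [h.ax.sP s hs, hn, h2, pow_add]
    generalize (1 / s) ^ n = Z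
    field_simp
    ring

end

end Pool.Agent.R396.XQ.RA

namespace Pool.Agent.R396.XQ

/-- Job D2. -/
theorem jobReal : JobReal := by
  intro P Q R hax k hk x x1 hx hx1 hlim hpos
  have h : RA.Dat P Q R k x x1 := ⟨hax, hk, hx, hx1, hlim, hpos⟩
  exact ⟨h.partA, h.partB, h.partC⟩

end Pool.Agent.R396.XQ
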