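import Mathlib

set_option autoImplicit false

/-!
# MP_d6a497_nt: depth-one extremal quasimodular forms, definitions and jobs
-/

namespace Pool.Agent.R396.XQ

open UpperHalfPlane hiding I
open Real Filter Topology Derivative EisensteinSeries ModularForm MatrixGroups
open scoped Manifold MatrixGroups ModularForm

noncomputable section

/-- `c` is the sequence of coefficients of the `q`-expansion of `F`. -/
def QExp (F : ℍ → ℂ) (c : ℕ → ℂ) : Prop :=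
  ∀ τ : ℍ, HasSum (fun n : ℕ => c n * Complex.exp (2 * π * Complex.I * (τ : ℂ)) ^ n) (F τ)

/-- `F` is a quasimodular form of weight `w` and depth at most one. -/
def IsQM (w : ℕ) (F : ℍ → ℂ) : Prop :=
  ∃ (f : ModularForm 𝒮ℒ (w : ℤ)) (g : ModularForm 𝒮ℒ ((w : ℤ) - 2)), ∀ τ, F τ = f τ + E2 τ * g τ

/-- the dimension `d_w` of the space of quasimodular forms of weight `w` and depth at most one -/
def dimQM (w : ℕ) : ℕ :=
  Module.finrank ℂ (ModularForm 𝒮ℒ (w : ℤ)) + Module.finrank ℂ (ModularForm 𝒮ℒ ((w : ℤ) - 2))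

/-- `X` is the depth-one extremal quasimodular form of weight `w`, normalised. -/
def IsExtremal (w : ℕ) (X : ℍ → ℂ) : Prop :=
  IsQM w X ∧ ∃ c : ℕ → ℂ, QExp X c ∧ (∀ n < dimQM w - 1, c n = 0) ∧ c (dimQM w - 1) = 1

/-- the value at `i t` -/
def ax (F : ℍ → ℂ) (t : ℝ) : ℝ := (F (ofComplex (Complex.I * (t : ℂ)))).re

/-- the real functions `E2(it), E4(it), E6(it)`: all the facts used -/
structure Ax (P Q R : ℝ → ℝ) : Prop where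
  dP : ∀ t, 0 < t → HasDerivAt P (-(2 * π) * ((P t ^ 2 - Q t) / 12)) t
  dQ : ∀ t, 0 < t → HasDerivAt Q (-(2 * π) * ((P t * Q t - R t) / 3)) t
  dR : ∀ t, 0 < t → HasDerivAt R (-(2 * π) * ((P t * R t - Q t ^ 2) / 2)) t
  sP : ∀ t, 0 < t → P (1 / t) = -(t ^ 2 * P t) + 6 * t / π
  sQ : ∀ t, 0 < t → Q (1 / t) = t ^ 4 * Q t
  sR : ∀ t, 0 < t → R (1 / t) = -(t ^ 6 * R t)
  lP : Tendsto P atTop (𝓝 1)
  lQ : Tendsto Q atTop (𝓝 1)
  lR : Tendsto R atTop (𝓝 1)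
  posQ : ∀ t, 0 < t → 0 < Q t
  posN : ∀ t, 0 < t → P t ^ 2 < Q t
  I1 : ∀ t, 0 < t →
    0 < 19 * Q t ^ 3 - 30 * P t ^ 2 * Q t ^ 2 + 15 * P t * Q t * R t - 4 * R t ^ 2
  I2 : ∀ t, 0 < t → 0 < 5 * Q t ^ 2 - 7 * P t ^ 2 * Q t + 2 * P t * R t

/-- D1: the facts hold for the Eisenstein series. -/
def JobAx : Prop := Ax (ax E2) (ax (E₄ : ℍ → ℂ)) (ax (E₆ : ℍ → ℂ))

/-- D2: real analysis. -/
def JobReal : Prop := ∀ (P Q R : ℝ → ℝ), Ax P Q R → ∀ k : ℕ, 1 ≤ k → ∀ x x1 : ℝ → ℝ,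
  (∀ t, 0 < t → HasDerivAt x (-(2 * π) * x1 t) t) →
  (∀ t, 0 < t → HasDerivAt x1 (-(2 * π) * (k * P t * x1 t +
    (k * (6 * k - 1) / 2) * ((Q t - P t ^ 2) / 12) * x t)) t) →
  Tendsto (fun t => x1 t / x t) atTop (𝓝 (k : ℝ)) → (∀ᶠ t in atTop, 0 < x t) →
  AntitoneOn (fun t => t ^ (6 * k - 1) * x t) (Set.Ioi 0) ∧
  (2 ≤ k → AntitoneOn (fun t => t ^ (6 * k + 3) * (Q t * x t)) (Set.Ioi 0)) ∧
  (2 ≤ k → AntitoneOn (fun t => t ^ (6 * k + 1) * (x1 t - (6 * k - 1) / 12 * P t * x t))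
    (Set.Ioi 0))

/-- D3: the bound for the order at infinity. -/
def JobOrd : Prop := ∀ (w : ℤ) (f : ModularForm 𝒮ℒ w) (g : ModularForm 𝒮ℒ (w - 2))
  (c : ℕ → ℂ), QExp (fun τ => f τ + E2 τ * g τ) c →
  (∀ n : ℕ, 6 * (n : ℤ) ≤ w → c n = 0) → f = 0 ∧ g = 0

/-- D4: the extremal forms of weight `6 k`, and the differential equation of Kaneko and Koike. -/
def JobKK : Prop := ∀ k : ℕ, 1 ≤ k →
  ∃ (f : ModularForm 𝒮ℒ (6 * k : ℤ)) (g : ModularForm 𝒮ℒ ((6 * k : ℤ) - 2)) (c : ℕ → ℝ),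
    QExp (fun τ => f τ + E2 τ * g τ) (fun n => (c n : ℂ)) ∧
    (∀ n < k, c n = 0) ∧ c k = 1 ∧
    ∀ τ, D (D (fun τ => f τ + E2 τ * g τ)) τ =
      (k : ℂ) * E2 τ * D (fun τ => f τ + E2 τ * g τ) τ -
        ((k : ℂ) * (6 * k - 1) / 2) * D E2 τ * (f τ + E2 τ * g τ)

end

end Pool.Agent.R396.XQ
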